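import Mathlib

set_option autoImplicit false
set_option linter.unusedSectionVars false

open Filter Topology

noncomputable section

namespace Pool.Agent.Helper192.KP

section Radius

variable {B : Type*} [NormedRing B] [NormedAlgebra ℂ B] [CompleteSpace B]

/-- real-valued spectral radius -/
def r (a : B) : ℝ := (spectralRadius ℂ a).toReal

theorem sr_le_norm (a : B) : spectralRadius ℂ a ≤ ENNReal.ofReal ‖a‖ := by
  have h1 := spectrum.pow_norm_pow_one_div_tendsto_nhds_spectralRadius a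
  refine le_of_tendsto h1 ?_
  filter_upwards [eventually_ge_atTop 1] with n hn
  refine ENNReal.ofReal_le_ofReal ?_
  have hn0 : n ≠ 0 := by omega
  calc ‖a ^ n‖ ^ (1 / n : ℝ) ≤ (‖a‖ ^ n) ^ (1 / n : ℝ) := by
        refine Real.rpow_le_rpow (norm_nonneg _) (norm_pow_le' a (by omega)) (by positivity)
    _ = ‖a‖ := by
        rw [one_div]
        exact Real.pow_rpow_inv_natCast (norm_nonneg _) hn0

theorem sr_ne_top (a : B) : spectralRadius ℂ a ≠ ⊤ := ne_top_of_le_ne_top ENNReal.ofReal_ne_top (sr_le_norm a)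

theorem ofReal_r (a : B) : ENNReal.ofReal (r a) = spectralRadius ℂ a := ENNReal.ofReal_toReal (sr_ne_top a)

theorem r_nonneg (a : B) : 0 ≤ r a := ENNReal.toReal_nonneg

theorem r_le_norm (a : B) : r a ≤ ‖a‖ := by
  have := ENNReal.toReal_mono ENNReal.ofReal_ne_top (sr_le_norm a)
  rwa [ENNReal.toReal_ofReal (norm_nonneg _)] at this

theorem norm_le_r {a : B} {l : ℂ} (hl : l ∈ spectrum ℂ a) : ‖l‖ ≤ r a := by
  have h : (‖l‖₊ : ENNReal) ≤ spectralRadius ℂ a := le_iSup₂_of_le l hl le_rfl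
  have := ENNReal.toReal_mono (sr_ne_top a) h
  simpa [r] using this

theorem r_le {a : B} {C : ℝ} (hC : 0 ≤ C) (h : ∀ l ∈ spectrum ℂ a, ‖l‖ ≤ C) : r a ≤ C := by
  have h1 : spectralRadius ℂ a ≤ ENNReal.ofReal C := by
    refine iSup₂_le (fun l hl => ?_)
    have h4 : ENNReal.ofReal ‖l‖ ≤ ENNReal.ofReal C := ENNReal.ofReal_le_ofReal (h l hl)
    rwa [ofReal_norm] at h4
  have := ENNReal.toReal_mono ENNReal.ofReal_ne_top h1
  rwa [ENNReal.toReal_ofReal hC] at this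

theorem exists_mem_r [Nontrivial B] (a : B) : ∃ l ∈ spectrum ℂ a, ‖l‖ = r a := by
  obtain ⟨l, hl, h⟩ := spectrum.exists_nnnorm_eq_spectralRadius a
  refine ⟨l, hl, ?_⟩
  unfold r
  rw [← h]
  simp

theorem exists_pow_lt (a : B) (α : ℝ) (h : r a < α) : ∃ k : ℕ, ‖a ^ (2 ^ k)‖ < α ^ (2 ^ k) := by
  have hα : 0 < α := lt_of_le_of_lt (r_nonneg a) h
  have h' : spectralRadius ℂ a < ENNReal.ofReal α := by
    rw [← ofReal_r]
    exact (ENNReal.ofReal_lt_ofReal_iff hα).mpr h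
  have h1 := spectrum.pow_norm_pow_one_div_tendsto_nhds_spectralRadius a
  have h2 := h1.eventually (gt_mem_nhds h')
  have h3 : Tendsto (fun k : ℕ => 2 ^ k) atTop atTop := tendsto_pow_atTop_atTop_of_one_lt one_lt_two
  obtain ⟨k, hk⟩ := (h3.eventually h2).exists
  refine ⟨k, ?_⟩
  rw [ENNReal.ofReal_lt_ofReal_iff hα] at hk
  have hn : (2 ^ k : ℕ) ≠ 0 := by positivity
  calc ‖a ^ (2 ^ k)‖ = (‖a ^ (2 ^ k)‖ ^ (((2 ^ k : ℕ) : ℝ)⁻¹)) ^ (2 ^ k) :=
        (Real.rpow_inv_natCast_pow (norm_nonneg _) hn).symm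
    _ < α ^ (2 ^ k) := by
      refine pow_lt_pow_left₀ ?_ (Real.rpow_nonneg (norm_nonneg _) _) hn
      simpa [one_div] using hk

theorem pow_succ_lt (a : B) (α : ℝ) (k : ℕ) (h : ‖a ^ (2 ^ k)‖ < α ^ (2 ^ k)) :
    ‖a ^ (2 ^ (k + 1))‖ < α ^ (2 ^ (k + 1)) := by
  rw [pow_succ, pow_mul, pow_mul, pow_two, pow_two]
  calc ‖a ^ 2 ^ k * a ^ 2 ^ k‖ ≤ ‖a ^ 2 ^ k‖ * ‖a ^ 2 ^ k‖ := norm_mul_le _ _
    _ < α ^ 2 ^ k * α ^ 2 ^ k := mul_self_lt_mul_self (norm_nonneg _) h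

theorem r_le_of_pow (a : B) (N : ℕ) (hN : 0 < N) (C : ℝ) (hC : 0 ≤ C) (h : ‖a ^ N‖ ≤ C ^ N) : r a ≤ C := by
  refine r_le hC (fun l hl => ?_)
  have h1 : l ^ N ∈ spectrum ℂ (a ^ N) := spectrum.pow_mem_pow a N hl
  have h2 := ((norm_le_r h1).trans (r_le_norm _)).trans h
  rw [norm_pow] at h2
  exact le_of_pow_le_pow_left₀ hN.ne' hC h2

theorem r_usc (a : B) (α : ℝ) (h : r a < α) : ∃ δ > 0, ∀ b, ‖b - a‖ < δ → r b < α := by
  obtain ⟨α', h1, h2⟩ := exists_between h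
  obtain ⟨k, hk⟩ := exists_pow_lt a α' h1
  have ho : IsOpen {z : B | ‖z ^ (2 ^ k)‖ < α' ^ (2 ^ k)} := isOpen_lt (by fun_prop) continuous_const
  obtain ⟨δ, hδ, hball⟩ := Metric.isOpen_iff.mp ho a hk
  refine ⟨δ, hδ, fun z hz => ?_⟩
  have h3 : ‖z ^ (2 ^ k)‖ < α' ^ (2 ^ k) := hball (by rwa [Metric.mem_ball, dist_eq_norm])
  exact lt_of_le_of_lt (r_le_of_pow z (2 ^ k) (by positivity) α' ((r_nonneg a).trans h1.le) h3.le) h2

theorem le_r_of_tendsto {ι : Type*} {F : Filter ι} [F.NeBot] (u : ι → B) (a : B) (hu : Tendsto u F (𝓝 a)) (ρ : ℝ)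
    (h : ∀ᶠ n in F, ρ ≤ r (u n)) : ρ ≤ r a := by
  by_contra hcon
  push Not at hcon
  obtain ⟨δ, hδ, hb⟩ := r_usc a ρ hcon
  have h1 : ∀ᶠ n in F, ‖u n - a‖ < δ := by
    have := hu.eventually (Metric.ball_mem_nhds a hδ)
    simpa [dist_eq_norm] using this
  obtain ⟨n, h2, h3⟩ := (h.and h1).exists
  exact absurd (hb _ h3) (not_lt.mpr h2)

theorem r_conj (g : Bˣ) (a : B) : r ((g : B) * a * (↑g⁻¹ : B)) = r a := by
  unfold r spectralRadius
  rw [spectrum.units_conjugate]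

theorem r_neg (a : B) : r (-a) = r a := by
  refine le_antisymm (r_le (r_nonneg _) (fun l hl => ?_)) (r_le (r_nonneg _) (fun l hl => ?_))
  · rw [← spectrum.neg_eq, Set.mem_neg] at hl
    rw [← norm_neg]; exact norm_le_r hl
  · have : -l ∈ spectrum ℂ (-a) := by rw [← spectrum.neg_eq, Set.mem_neg, neg_neg]; exact hl
    rw [← norm_neg]; exact norm_le_r this

theorem dini {W : Type*} [TopologicalSpace W] [CompactSpace W] (P : W → B) (hP : Continuous P) (α : ℝ)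
    (h : ∀ w, r (P w) < α) :
    ∃ k : ℕ, ∀ j, k ≤ j → ∀ w, ‖P w ^ (2 ^ j)‖ < α ^ (2 ^ j) := by
  set U : ℕ → Set W := fun k => {w | ‖P w ^ (2 ^ k)‖ < α ^ (2 ^ k)} with hU
  have hmono : Monotone U := monotone_nat_of_le_succ (fun k w hw => pow_succ_lt _ _ k hw)
  have hopen : ∀ k, IsOpen (U k) := fun k => isOpen_lt (by fun_prop) continuous_const
  have hcov : Set.univ ⊆ ⋃ k, U k := fun w _ => Set.mem_iUnion.mpr (exists_pow_lt _ _ (h w))
  obtain ⟨k, hk⟩ := isCompact_univ.elim_directed_cover U hopen hcov (hmono.directed_le)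
  exact ⟨k, fun j hj w => hmono hj (hk (Set.mem_univ w))⟩

/-- three circles for the spectral radius, in a convenient asymmetric form -/
theorem annulus (P : ℂ → B) (hP : Differentiable ℂ P) (ρ R a C a' : ℝ) (m : ℕ) (hρ : 0 < ρ) (hρ1 : ρ < 1) (hR : 1 < R)
    (ha' : 0 < a') (h1 : ∀ w, ‖w‖ = ρ → r (P w) < a) (h2 : ∀ w, ‖w‖ = R → r (P w) < C)
    (e1 : a ^ (2 ^ m) ≤ ρ * a' ^ (2 ^ m)) (e2 : C ^ (2 ^ m) ≤ R * a' ^ (2 ^ m)) : r (P 1) ≤ a' := by
  have hR0 : 0 < R := by linarith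
  have ha : 0 < a := lt_of_le_of_lt (r_nonneg _) (h1 (ρ : ℂ) (by simp [abs_of_pos hρ]))
  have hC : 0 < C := lt_of_le_of_lt (r_nonneg _) (h2 (R : ℂ) (by simp [abs_of_pos hR0]))
  have c1 : CompactSpace (Metric.sphere (0 : ℂ) ρ) := isCompact_iff_compactSpace.mp (isCompact_sphere _ _)
  have c2 : CompactSpace (Metric.sphere (0 : ℂ) R) := isCompact_iff_compactSpace.mp (isCompact_sphere _ _)
  obtain ⟨k1, hk1⟩ := dini (fun w : Metric.sphere (0 : ℂ) ρ => P w) (hP.continuous.comp continuous_subtype_val) a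
    (fun w => h1 w (by simp))
  obtain ⟨k2, hk2⟩ := dini (fun w : Metric.sphere (0 : ℂ) R => P w) (hP.continuous.comp continuous_subtype_val) C
    (fun w => h2 w (by simp))
  set k : ℕ := m + max k1 k2 with hk
  set N : ℕ := 2 ^ k with hN
  set p : ℕ := 2 ^ (max k1 k2) with hp
  have hNp : N = 2 ^ m * p := by rw [hN, hk, pow_add]
  have hN0 : 0 < N := by positivity
  have b1 : ∀ w : ℂ, ‖w‖ = ρ → ‖P w ^ N‖ ≤ a ^ N := fun w hw =>
    (hk1 k (by rw [hk]; have := le_max_left k1 k2; omega) ⟨w, by simpa using hw⟩).le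
  have b2 : ∀ w : ℂ, ‖w‖ = R → ‖P w ^ N‖ ≤ C ^ N := fun w hw =>
    (hk2 k (by rw [hk]; have := le_max_right k1 k2; omega) ⟨w, by simpa using hw⟩).le
  have f1 : (ρ⁻¹) ^ p * a ^ N ≤ a' ^ N := by
    rw [inv_pow, inv_mul_le_iff₀ (by positivity), hNp, pow_mul, pow_mul, ← mul_pow]
    exact pow_le_pow_left₀ (by positivity) e1 _
  have f2 : (R⁻¹) ^ p * C ^ N ≤ a' ^ N := by
    rw [inv_pow, inv_mul_le_iff₀ (by positivity), hNp, pow_mul, pow_mul, ← mul_pow]
    exact pow_le_pow_left₀ (by positivity) e2 _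
  obtain ⟨l, hl1, hl2⟩ := exists_dual_vector'' ℂ (P 1 ^ N)
  have hlb : ∀ z : B, ‖l z‖ ≤ ‖z‖ := fun z => by simpa using l.le_of_opNorm_le hl1 z
  set f : ℂ → ℂ := fun w => (w⁻¹) ^ p * l (P w ^ N) with hf
  set U : Set ℂ := {w | ρ < ‖w‖ ∧ ‖w‖ < R} with hU
  have hUo : IsOpen U := (isOpen_lt continuous_const continuous_norm).inter (isOpen_lt continuous_norm continuous_const)
  have hUc : closure U ⊆ {w | ρ ≤ ‖w‖ ∧ ‖w‖ ≤ R} := by
    refine closure_minimal (fun w hw => ⟨hw.1.le, hw.2.le⟩) ?_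
    exact (isClosed_le continuous_const continuous_norm).inter (isClosed_le continuous_norm continuous_const)
  have hUb : Bornology.IsBounded U := by
    refine (Metric.isBounded_closedBall (x := (0 : ℂ)) (r := R)).subset (fun w hw => ?_)
    simpa using hw.2.le
  have hd : DiffContOnCl ℂ f U := by
    refine DifferentiableOn.diffContOnCl ?_
    intro w hw
    have hw' := hUc hw
    have hw0 : w ≠ 0 := by
      intro h0
      have := hw'.1
      rw [h0, norm_zero] at this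
      linarith
    refine DifferentiableAt.differentiableWithinAt ?_
    have d1 : DifferentiableAt ℂ (fun w => l (P w ^ N)) w := l.differentiableAt.comp w ((hP w).pow N)
    have d2 : DifferentiableAt ℂ (fun w : ℂ => (w⁻¹) ^ p) w := (differentiableAt_inv hw0).pow p
    exact d2.mul d1
  have hfr : ∀ w ∈ frontier U, ‖f w‖ ≤ a' ^ N := by
    intro w hw
    rw [hUo.frontier_eq] at hw
    have hw1 := hUc hw.1
    have hw2 : ¬ (ρ < ‖w‖ ∧ ‖w‖ < R) := hw.2
    have hcase : ‖w‖ = R ∨ ‖w‖ = ρ := by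
      by_contra hcon
      push Not at hcon
      exact hw2 ⟨lt_of_le_of_ne hw1.1 (Ne.symm hcon.2), lt_of_le_of_ne hw1.2 hcon.1⟩
    simp only [hf, norm_mul, norm_pow, norm_inv]
    rcases hcase with h | h
    · rw [h]
      exact (mul_le_mul_of_nonneg_left ((hlb _).trans (b2 w h)) (by positivity)).trans f2
    · rw [h]
      exact (mul_le_mul_of_nonneg_left ((hlb _).trans (b1 w h)) (by positivity)).trans f1
  have h1U : (1 : ℂ) ∈ closure U := subset_closure ⟨by simpa using hρ1, by simpa using hR⟩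
  have key := Complex.norm_le_of_forall_mem_frontier_norm_le hUb hd hfr h1U
  have hf1 : f 1 = ((‖P 1 ^ N‖ : ℝ) : ℂ) := by
    simp only [hf, inv_one, one_pow, one_mul]
    rw [hl2]
    rfl
  rw [hf1, Complex.norm_real, norm_norm] at key
  exact r_le_of_pow _ N hN0 _ ha'.le key

theorem exists_m (ρ a a' : ℝ) (hρ : 0 < ρ) (ha : 0 ≤ a) (haa : a < a') : ∃ m : ℕ, a ^ (2 ^ m) ≤ ρ * a' ^ (2 ^ m) := by
  have ha' : 0 < a' := lt_of_le_of_lt ha haa
  have h1 : Tendsto (fun n : ℕ => (a / a') ^ n) atTop (𝓝 0) :=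
    tendsto_pow_atTop_nhds_zero_of_lt_one (by positivity) ((div_lt_one ha').mpr haa)
  have h3 : Tendsto (fun k : ℕ => 2 ^ k) atTop atTop := tendsto_pow_atTop_atTop_of_one_lt one_lt_two
  obtain ⟨m, hm⟩ := ((h1.comp h3).eventually (gt_mem_nhds hρ)).exists
  refine ⟨m, ?_⟩
  simp only [Function.comp, div_pow] at hm
  rw [div_lt_iff₀ (by positivity)] at hm
  exact hm.le

/-- Liouville for the spectral radius -/
theorem liouville_le (P : ℂ → B) (hP : Differentiable ℂ P) (C : ℝ) (hC : ∀ w, r (P w) ≤ C) : r (P 1) ≤ r (P 0) := by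
  refine le_of_forall_gt_imp_ge_of_dense (fun a' ha' => ?_)
  obtain ⟨a, ha1, ha2⟩ := exists_between ha'
  obtain ⟨δ, hδ, hb⟩ := r_usc (P 0) a ha1
  have hcont : ContinuousAt P 0 := (hP 0).continuousAt
  obtain ⟨ρ, hρ, hρb⟩ := Metric.continuousAt_iff.mp hcont δ hδ
  set ρ' : ℝ := min (ρ / 2) (1 / 2) with hρ'
  have hρ'0 : 0 < ρ' := lt_min (by positivity) (by norm_num)
  have hρ'1 : ρ' < 1 := lt_of_le_of_lt (min_le_right _ _) (by norm_num)
  have hρ'2 : ρ' < ρ := lt_of_le_of_lt (min_le_left _ _) (by linarith)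
  have ha0 : 0 ≤ a := (r_nonneg _).trans ha1.le
  have ha'0 : 0 < a' := lt_of_le_of_lt ha0 ha2
  obtain ⟨m, hm⟩ := exists_m ρ' a a' hρ'0 ha0 ha2
  set C' : ℝ := C + 1 with hC'
  have hC0 : 0 ≤ C := (r_nonneg _).trans (hC 0)
  set R : ℝ := 2 + C' ^ (2 ^ m) / a' ^ (2 ^ m) with hR
  refine annulus P hP ρ' R a C' a' m hρ'0 hρ'1 ?_ ha'0 ?_ ?_ hm ?_
  · rw [hR]; have : 0 ≤ C' ^ (2 ^ m) / a' ^ (2 ^ m) := by positivity
    linarith
  · intro w hw
    refine hb _ ?_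
    have := hρb (x := w) (by rw [dist_zero_right, hw]; exact hρ'2)
    rwa [dist_eq_norm] at this
  · intro w _
    exact lt_of_le_of_lt (hC w) (by rw [hC']; linarith)
  · rw [hR, add_mul, div_mul_cancel₀ _ (by positivity)]
    have : 0 ≤ 2 * a' ^ (2 ^ m) := by positivity
    linarith

theorem liouville (P : ℂ → B) (hP : Differentiable ℂ P) (C : ℝ) (hC : ∀ w, r (P w) ≤ C) (z : ℂ) : r (P z) = r (P 0) := by
  refine le_antisymm ?_ ?_
  · have h1 : Differentiable ℂ (fun w => P (w * z)) := hP.comp (by fun_prop)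
    have := liouville_le _ h1 C (fun w => hC _)
    simpa using this
  · have h1 : Differentiable ℂ (fun w => P (z - w * z)) := hP.comp (by fun_prop)
    have := liouville_le _ h1 C (fun w => hC _)
    simpa using this

end Radius

end Pool.Agent.Helper192.KP
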