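import Mathlib
import Pool.Agent.Helper192.KP.A

set_option autoImplicit false
set_option linter.unusedSectionVars false

open Filter Topology

noncomputable section

namespace Pool.Agent.Helper192.KP

/-- expansion lemma -/
theorem expand_one {V : Type*} [NormedAddCommGroup V] [NormedSpace ℂ V] (S : Submodule ℂ V) (hS : IsClosed (S : Set V))
    (X : V →L[ℂ] V) (v : V) (h : ∀ᶠ t in 𝓝[≠] (0 : ℂ), ∃ w ∈ S, w + t • X w = v) : v ∈ S := by
  have hb : ∀ᶠ t in 𝓝[≠] (0 : ℂ), ‖t‖ * ‖X‖ < 1 / 2 := by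
    have h1 : Tendsto (fun t : ℂ => ‖t‖ * ‖X‖) (𝓝 0) (𝓝 (‖(0 : ℂ)‖ * ‖X‖)) := (tendsto_id.norm).mul_const _
    rw [norm_zero, zero_mul] at h1
    exact (h1.mono_left nhdsWithin_le_nhds).eventually (gt_mem_nhds (by norm_num))
  by_contra hcon
  obtain ⟨ε, hε, hball⟩ := Metric.isOpen_iff.mp hS.isOpen_compl v hcon
  have hc : ∀ᶠ t in 𝓝[≠] (0 : ℂ), ‖t‖ * (‖X‖ * (2 * ‖v‖)) < ε := by
    have h1 : Tendsto (fun t : ℂ => ‖t‖ * (‖X‖ * (2 * ‖v‖))) (𝓝 0) (𝓝 (‖(0 : ℂ)‖ * (‖X‖ * (2 * ‖v‖)))) := (tendsto_id.norm).mul_const _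
    rw [norm_zero, zero_mul] at h1
    exact (h1.mono_left nhdsWithin_le_nhds).eventually (gt_mem_nhds hε)
  obtain ⟨t, ⟨w, hw, hwv⟩, h2, h3⟩ := (h.and (hb.and hc)).exists
  have e1 : w - v = -(t • X w) := by rw [← hwv]; abel
  have e2 : ‖t • X w‖ ≤ ‖t‖ * ‖X‖ * ‖w‖ := by
    rw [norm_smul, mul_assoc]
    exact mul_le_mul_of_nonneg_left (X.le_opNorm w) (norm_nonneg _)
  have e3 : ‖w‖ ≤ 2 * ‖v‖ := by
    have h4 : ‖w‖ ≤ ‖v‖ + ‖t • X w‖ := by
      calc ‖w‖ = ‖v - t • X w‖ := by rw [← hwv]; congr 1; abel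
        _ ≤ _ := norm_sub_le _ _
    nlinarith [norm_nonneg w]
  refine hball (show w ∈ Metric.ball v ε from ?_) hw
  rw [Metric.mem_ball, dist_eq_norm, e1, norm_neg]
  calc ‖t • X w‖ ≤ ‖t‖ * ‖X‖ * ‖w‖ := e2
    _ = ‖t‖ * (‖X‖ * ‖w‖) := by ring
    _ ≤ ‖t‖ * (‖X‖ * (2 * ‖v‖)) := by gcongr
    _ < ε := h3

theorem expand_succ {V : Type*} [NormedAddCommGroup V] [NormedSpace ℂ V] (S : Submodule ℂ V) (hS : IsClosed (S : Set V))
    (X : V →L[ℂ] V) (v : V) (h : ∀ᶠ t in 𝓝[≠] (0 : ℂ), ∃ w ∈ S, w + t • X w = v) :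
    ∀ᶠ t in 𝓝[≠] (0 : ℂ), ∃ w ∈ S, w + t • X w = X v := by
  have hv := expand_one S hS X v h
  filter_upwards [h, self_mem_nhdsWithin] with t ht ht0
  obtain ⟨w, hw, hwv⟩ := ht
  have ht0' : t ≠ 0 := ht0
  refine ⟨X w, ?_, ?_⟩
  · have : X w = t⁻¹ • (v - w) := by
      rw [← hwv, add_sub_cancel_left, smul_smul, inv_mul_cancel₀ ht0', one_smul]
    rw [this]
    exact S.smul_mem _ (S.sub_mem hv hw)
  · rw [← hwv, map_add, map_smul]

theorem expand {V : Type*} [NormedAddCommGroup V] [NormedSpace ℂ V] (S : Submodule ℂ V) (hS : IsClosed (S : Set V))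
    (X : V →L[ℂ] V) (v : V) (h : ∀ᶠ t in 𝓝[≠] (0 : ℂ), ∃ w ∈ S, w + t • X w = v) : v ∈ S ∧ X v ∈ S ∧ X (X v) ∈ S := by
  have h1 := expand_succ S hS X v h
  exact ⟨expand_one S hS X v h, expand_one S hS X _ h1, expand_one S hS X _ (expand_succ S hS X _ h1)⟩

variable {B : Type*} [NormedRing B] [NormedAlgebra ℂ B] [CompleteSpace B]

/-- right multiplication as a continuous linear map -/
def mR (u : B) : B →L[ℂ] B := (ContinuousLinearMap.mul ℂ B).flip u

@[simp] theorem mR_apply (u b : B) : mR u b = b * u := rfl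

/-- left multiplication as a continuous linear map -/
def mL (u : B) : B →L[ℂ] B := ContinuousLinearMap.mul ℂ B u

@[simp] theorem mL_apply (u b : B) : mL u b = u * b := rfl

theorem eventually_unit (k : B) : ∀ᶠ t in 𝓝[≠] (0 : ℂ), ∃ g : Bˣ, (g : B) = 1 + t • k := by
  have h1 : Tendsto (fun t : ℂ => ‖-(t • k)‖) (𝓝 0) (𝓝 ‖-((0 : ℂ) • k)‖) :=
    ((tendsto_id.smul_const k).neg).norm
  rw [zero_smul, neg_zero, norm_zero] at h1
  filter_upwards [(h1.mono_left nhdsWithin_le_nhds).eventually (gt_mem_nhds one_pos)] with t ht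
  exact ⟨Units.oneSub _ ht, by simp⟩

/-- closed maximal left ideals, as complex subspaces -/
structure ML (L : Submodule ℂ B) : Prop where
  mul_mem : ∀ (u : B) {l : B}, l ∈ L → u * l ∈ L
  closed : IsClosed (L : Set B)
  one_notMem : (1 : B) ∉ L
  max : ∀ g : B, g ∉ L → ∃ u : B, u * g - 1 ∈ L

theorem ML.of_ideal (I : Ideal B) (hI : I.IsMaximal) : ML (Submodule.restrictScalars ℂ I) where
  mul_mem := fun u l hl => I.mul_mem_left u hl
  closed := hI.isClosed
  one_notMem := fun h => hI.ne_top ((Ideal.eq_top_iff_one I).mpr h)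
  max := by
    intro g hg
    have hg' : g ∉ I := hg
    have hlt : I < I ⊔ Ideal.span {g} := by
      refine lt_of_le_of_ne le_sup_left (fun h => hg' ?_)
      rw [h]
      exact (le_sup_right : Ideal.span {g} ≤ I ⊔ Ideal.span {g}) (Ideal.subset_span rfl)
    have htop := hI.1.2 _ hlt
    have h1 : (1 : B) ∈ I ⊔ Ideal.span {g} := by rw [htop]; trivial
    obtain ⟨y, hy, z, hz, hyz⟩ := Submodule.mem_sup.mp h1
    obtain ⟨a, ha⟩ := Ideal.mem_span_singleton'.mp hz
    refine ⟨a, ?_⟩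
    have : a * g - 1 = -y := by rw [ha, ← hyz]; abel
    rw [this]
    exact I.neg_mem hy

theorem exists_ML (b : B) (h : ∀ x : B, x * b ≠ 1) : ∃ L : Submodule ℂ B, ML L ∧ b ∈ L := by
  have hne : Ideal.span {b} ≠ ⊤ := by
    intro htop
    have h1 : (1 : B) ∈ Ideal.span {b} := by rw [htop]; trivial
    obtain ⟨a, ha⟩ := Ideal.mem_span_singleton'.mp h1
    exact h a ha
  obtain ⟨M, hM, hle⟩ := Ideal.exists_le_maximal _ hne
  exact ⟨_, ML.of_ideal M hM, hle (Ideal.subset_span rfl)⟩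

variable {L : Submodule ℂ B}

theorem ML.not_isUnit (hL : ML L) {a : B} (ha : a ∈ L) : ¬ IsUnit a := by
  rintro ⟨u, rfl⟩
  apply hL.one_notMem
  have := hL.mul_mem (↑u⁻¹ : B) ha
  rwa [Units.inv_mul] at this

theorem ML.mem_spectrum (hL : ML L) {b : B} {l : ℂ} (h : b - l • (1 : B) ∈ L) : l ∈ spectrum ℂ b := by
  rw [spectrum.mem_iff]
  refine hL.not_isUnit ?_
  have : (algebraMap ℂ B) l - b = -(b - l • (1 : B)) := by rw [Algebra.algebraMap_eq_smul_one]; abel
  rw [this]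
  exact L.neg_mem h

theorem ML.one_le_norm (hL : ML L) {a : B} (ha : a - 1 ∈ L) : 1 ≤ ‖a‖ := by
  by_contra hcon
  push Not at hcon
  have h1 := (Units.oneSub a hcon).isUnit
  refine hL.not_isUnit (a := 1 - a) ?_ (by simpa using h1)
  have : (1 : B) - a = -(a - 1) := by abel
  rw [this]; exact L.neg_mem ha

theorem ML.one_le_r (hL : ML L) {a : B} (ha : a - 1 ∈ L) : 1 ≤ r a := by
  have h : (1 : ℂ) ∈ spectrum ℂ a := hL.mem_spectrum (by simpa using ha)
  simpa using norm_le_r h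

theorem ML.eq_top (hL : ML L) (M : Submodule ℂ B) (hM : ∀ (u : B) {l : B}, l ∈ M → u * l ∈ M) (hle : L ≤ M) (g : B)
    (hg : g ∈ M) (hgL : g ∉ L) : ∀ c, c ∈ M := by
  obtain ⟨u, hu⟩ := hL.max g hgL
  have h1 : (1 : B) ∈ M := by
    have h2 := M.sub_mem (hM u hg) (hle hu)
    have e : u * g - (u * g - 1) = 1 := by abel
    rwa [e] at h2
  intro c
  have := hM c h1
  rwa [mul_one] at this

/-- conjugate of a maximal left ideal: `{c | c * h ∈ L}` -/
def cj (L : Submodule ℂ B) (h : B) : Submodule ℂ B := L.comap (mR h).toLinearMap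

theorem mem_cj {h c : B} : c ∈ cj L h ↔ c * h ∈ L := Iff.rfl

theorem ML.cj (hL : ML L) (h : Bˣ) : ML (cj L (h : B)) where
  mul_mem := fun u l hl => by
    rw [mem_cj] at hl ⊢
    rw [mul_assoc]
    exact hL.mul_mem u hl
  closed := hL.closed.preimage (mR (h : B)).continuous
  one_notMem := by
    rw [mem_cj, one_mul]
    exact fun hh => hL.not_isUnit hh h.isUnit
  max := by
    intro g hg
    rw [mem_cj] at hg
    obtain ⟨u, hu⟩ := hL.max _ hg
    refine ⟨(h : B) * u, ?_⟩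
    rw [mem_cj]
    have : ((h : B) * u * g - 1) * (h : B) = (h : B) * (u * (g * (h : B)) - 1) := by
      noncomm_ring
    rw [this]
    exact hL.mul_mem _ hu

/-- the largest two-sided ideal in `L` -/
def PL (L : Submodule ℂ B) : Submodule ℂ B where
  carrier := {p | ∀ b, p * b ∈ L}
  add_mem' := fun {p q} hp hq b => by rw [add_mul]; exact L.add_mem (hp b) (hq b)
  zero_mem' := fun b => by rw [zero_mul]; exact L.zero_mem
  smul_mem' := fun c p hp b => by rw [smul_mul_assoc]; exact L.smul_mem _ (hp b)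

theorem mem_PL {p : B} : p ∈ PL L ↔ ∀ b, p * b ∈ L := Iff.rfl

theorem PL_le {p : B} (hp : p ∈ PL L) : p ∈ L := by simpa using hp 1

theorem ML.PL_mul_left (hL : ML L) {p : B} (hp : p ∈ PL L) (u : B) : u * p ∈ PL L := fun b => by
  rw [mul_assoc]; exact hL.mul_mem u (hp b)

theorem PL_mul_right {p : B} (hp : p ∈ PL L) (u : B) : p * u ∈ PL L := fun b => by
  rw [mul_assoc]; exact hp _

theorem PL_cj (h : Bˣ) {p : B} : p ∈ PL (cj L (h : B)) ↔ p ∈ PL L := by
  rw [mem_PL, mem_PL]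
  constructor
  · intro hp b
    have := hp (b * (↑h⁻¹ : B))
    rw [mem_cj] at this
    have e : p * (b * (↑h⁻¹ : B)) * (h : B) = p * b := by
      rw [mul_assoc, mul_assoc, Units.inv_mul, mul_one]
    rwa [e] at this
  · intro hp b
    rw [mem_cj, mul_assoc]
    exact hp _

section Zemanek

/-- Zemánek's set -/
def ZZ (B : Type*) [NormedRing B] [NormedAlgebra ℂ B] [CompleteSpace B] : Submodule ℂ B where
  carrier := {m | ∀ (c : B) (z : ℂ), r (c + z • m) ≤ r c}
  add_mem' := fun {m m'} hm hm' c z => by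
    rw [smul_add, ← add_assoc]
    exact (hm' _ z).trans (hm c z)
  zero_mem' := fun c z => by simp
  smul_mem' := fun a m hm c z => by
    rw [smul_smul]
    exact hm c _

theorem mem_ZZ {m : B} : m ∈ ZZ B ↔ ∀ (c : B) (z : ℂ), r (c + z • m) ≤ r c := Iff.rfl

theorem ZZ_eq {m : B} (hm : m ∈ ZZ B) (c : B) (z : ℂ) : r (c + z • m) = r c := by
  refine le_antisymm (hm c z) ?_
  have := hm (c + z • m) (-z)
  rwa [neg_smul, add_neg_cancel_right] at this

theorem ZZ_closed : IsClosed ((ZZ B : Submodule ℂ B) : Set B) := by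
  rw [← isSeqClosed_iff_isClosed]
  intro u m hu hum
  have h1 : ∀ (c : B) (z : ℂ), r c ≤ r (c + z • m) := by
    intro c z
    refine le_r_of_tendsto (fun n => c + z • u n) (c + z • m) ((hum.const_smul z).const_add c) (r c) ?_
    exact Eventually.of_forall (fun n => (ZZ_eq (hu n) c z).ge)
  intro c z
  have := h1 (c + z • m) (-z)
  rwa [neg_smul, add_neg_cancel_right] at this

theorem ZZ_conj {m : B} (hm : m ∈ ZZ B) (g : Bˣ) : (g : B) * m * (↑g⁻¹ : B) ∈ ZZ B := by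
  intro c z
  have e1 : c + z • ((g : B) * m * (↑g⁻¹ : B)) = (g : B) * ((↑g⁻¹ : B) * c * (g : B) + z • m) * (↑g⁻¹ : B) := by
    rw [mul_add, add_mul, mul_smul_comm, smul_mul_assoc]
    congr 1
    simp only [mul_assoc, Units.mul_inv, mul_one, Units.mul_inv_cancel_left]
  rw [e1, r_conj]
  refine (hm _ z).trans (le_of_eq ?_)
  have := r_conj g⁻¹ c
  simpa using this

theorem ZZ_comm {m : B} (hm : m ∈ ZZ B) (k : B) : k * m - m * k ∈ ZZ B := by
  refine expand_one (ZZ B) ZZ_closed (mR k) _ ?_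
  filter_upwards [eventually_unit k, self_mem_nhdsWithin] with t ht ht0
  obtain ⟨g, hg⟩ := ht
  have ht0' : t ≠ 0 := ht0
  refine ⟨t⁻¹ • ((g : B) * m * (↑g⁻¹ : B) - m), ?_, ?_⟩
  · exact (ZZ B).smul_mem _ ((ZZ B).sub_mem (ZZ_conj hm g) hm)
  · have e1 : ∀ w : B, w + t • mR k w = w * (g : B) := by
      intro w
      rw [hg, mR_apply, mul_add, mul_one, mul_smul_comm]
    rw [e1, smul_mul_assoc, sub_mul, mul_assoc, mul_assoc, Units.inv_mul, mul_one, hg]
    have e2 : (1 + t • k) * m - m * (1 + t • k) = t • (k * m - m * k) := by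
      rw [add_mul, mul_add, one_mul, mul_one, smul_mul_assoc, mul_smul_comm, smul_sub]; abel
    rw [e2, smul_smul, inv_mul_cancel₀ ht0', one_smul]

theorem ZZ_r {m : B} (hm : m ∈ ZZ B) : r m = 0 := by
  have h1 := hm 0 1
  have h2 : r (0 : B) = 0 := le_antisymm ((r_le_norm _).trans (by simp)) (r_nonneg _)
  rw [zero_add, one_smul, h2] at h1
  exact le_antisymm h1 (r_nonneg _)

theorem zemanek {m : B} (hm : m ∈ ZZ B) (hL : ML L) : m ∈ L := by
  by_contra hmL
  obtain ⟨u, hu⟩ := hL.max m hmL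
  by_cases hcase : ∀ l ∈ L, l * m ∈ L
  · -- powers
    have hpow : ∀ n : ℕ, u ^ n * m ^ n - 1 ∈ L := by
      intro n
      induction n with
      | zero => simp
      | succ n ih =>
        have hpm : ∀ (j : ℕ) (l : B), l ∈ L → l * m ^ j ∈ L := by
          intro j
          induction j with
          | zero => intro l hl; simpa using hl
          | succ j ihj => intro l hl; rw [pow_succ, ← mul_assoc]; exact hcase _ (ihj l hl)
        have e1 : u ^ (n + 1) * m ^ (n + 1) - 1 = u ^ n * ((u * m - 1) * m ^ n) + (u ^ n * m ^ n - 1) := by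
          rw [pow_succ, pow_succ' m]
          noncomm_ring
        rw [e1]
        exact L.add_mem (hL.mul_mem _ (hpm n _ hu)) ih
    have hle : ∀ n : ℕ, 1 ≤ ‖u ^ n‖ * ‖m ^ n‖ := fun n => (hL.one_le_norm (hpow n)).trans (norm_mul_le _ _)
    have hr := ZZ_r hm
    set α : ℝ := 1 / (2 * (‖u‖ + 1)) with hα
    have hα0 : 0 < α := by positivity
    obtain ⟨k, hk⟩ := exists_pow_lt m α (by rw [hr]; exact hα0)
    have h1 := hle (2 ^ k)
    have h2 : ‖u ^ (2 ^ k)‖ ≤ (‖u‖ + 1) ^ (2 ^ k) :=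
      (norm_pow_le' u (by positivity)).trans (by gcongr; linarith)
    have h3 : ‖u ^ (2 ^ k)‖ * ‖m ^ (2 ^ k)‖ < 1 := by
      calc ‖u ^ (2 ^ k)‖ * ‖m ^ (2 ^ k)‖ ≤ (‖u‖ + 1) ^ (2 ^ k) * α ^ (2 ^ k) := by gcongr
        _ = ((‖u‖ + 1) * α) ^ (2 ^ k) := (mul_pow _ _ _).symm
        _ = (1 / 2) ^ (2 ^ k) := by congr 1; rw [hα]; field_simp
        _ < 1 := pow_lt_one₀ (by norm_num) (by norm_num) (by positivity)
    linarith
  · push Not at hcase
    obtain ⟨l, hl, hlm⟩ := hcase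
    obtain ⟨v, hv⟩ := hL.max _ hlm
    have h1 : (v * l) * m - m * (v * l) - 1 ∈ L := by
      have e : (v * l) * m - m * (v * l) - 1 = (v * (l * m) - 1) - (m * v) * l := by noncomm_ring
      rw [e]
      exact L.sub_mem hv (hL.mul_mem _ hl)
    have h2 := hL.one_le_r h1
    rw [ZZ_r (ZZ_comm hm (v * l))] at h2
    linarith

end Zemanek

section Wielandt

/-- the two-sided ideal generated by `β` -/
def J2 (β : B) : Submodule ℂ B := Submodule.span ℂ {x | ∃ u v, x = u * β * v}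

theorem J2_mul_left {β j : B} (hj : j ∈ J2 β) (w : B) : w * j ∈ J2 β := by
  refine Submodule.span_induction (p := fun x _ => w * x ∈ J2 β) ?_ ?_ ?_ ?_ hj
  · rintro x ⟨u, v, rfl⟩
    refine Submodule.subset_span ⟨w * u, v, by noncomm_ring⟩
  · simp
  · intro x y _ _ hx hy
    rw [mul_add]; exact (J2 β).add_mem hx hy
  · intro a x _ hx
    rw [mul_smul_comm]; exact (J2 β).smul_mem _ hx

theorem J2_mul_right {β j : B} (hj : j ∈ J2 β) (w : B) : j * w ∈ J2 β := by
  refine Submodule.span_induction (p := fun x _ => x * w ∈ J2 β) ?_ ?_ ?_ ?_ hj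
  · rintro x ⟨u, v, rfl⟩
    refine Submodule.subset_span ⟨u, v * w, by noncomm_ring⟩
  · simp
  · intro x y _ _ hx hy
    rw [add_mul]; exact (J2 β).add_mem hx hy
  · intro a x _ hx
    rw [smul_mul_assoc]; exact (J2 β).smul_mem _ hx

/-- closed two-sided ideals: a nonzero scalar is not a commutator modulo a proper one -/
theorem wielandt_aux (J : Submodule ℂ B) (hJc : IsClosed (J : Set B)) (hl : ∀ (w : B) {j : B}, j ∈ J → w * j ∈ J)
    (hr : ∀ (w : B) {j : B}, j ∈ J → j * w ∈ J) (e f : B) (l : ℂ) (hl0 : l ≠ 0) (h : e * f - f * e - l • (1 : B) ∈ J) :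
    (1 : B) ∈ J := by
  have h1 : ∀ n : ℕ, e ^ (n + 1) * f - f * e ^ (n + 1) - (((n : ℂ) + 1) * l) • e ^ n ∈ J := by
    intro n
    induction n with
    | zero => simpa using h
    | succ n ih =>
      have e1 : e ^ (n + 1 + 1) * f - f * e ^ (n + 1 + 1) - ((((n + 1 : ℕ) : ℂ) + 1) * l) • e ^ (n + 1) =
          e * (e ^ (n + 1) * f - f * e ^ (n + 1) - (((n : ℂ) + 1) * l) • e ^ n) +
          (e * f - f * e - l • (1 : B)) * e ^ (n + 1) := by
        rw [mul_sub, mul_sub, sub_mul, sub_mul, mul_smul_comm, smul_mul_assoc, one_mul, ← pow_succ']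
        have e2 : ((((n + 1 : ℕ) : ℂ) + 1) * l) • e ^ (n + 1) = (((n : ℂ) + 1) * l) • e ^ (n + 1) + l • e ^ (n + 1) := by
          rw [← add_smul]; congr 1; push_cast; ring
        rw [e2, pow_succ' e (n + 1)]
        noncomm_ring
      rw [e1]
      exact J.add_mem (hl _ ih) (hr _ h)
  -- descending
  have hdesc : ∀ n : ℕ, e ^ n ∈ J → (1 : B) ∈ J := by
    intro n
    induction n with
    | zero => intro h0; simpa using h0
    | succ n ih =>
      intro hn
      apply ih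
      have h2 : (((n : ℂ) + 1) * l) • e ^ n ∈ J := by
        have h3 := J.sub_mem (J.sub_mem (hr f hn) (hl f hn)) (h1 n)
        have e1 : e ^ (n + 1) * f - f * e ^ (n + 1) - (e ^ (n + 1) * f - f * e ^ (n + 1) - (((n : ℂ) + 1) * l) • e ^ n) =
          (((n : ℂ) + 1) * l) • e ^ n := by abel
        rwa [e1] at h3
      have hne : ((n : ℂ) + 1) * l ≠ 0 := mul_ne_zero (by exact_mod_cast Nat.succ_ne_zero n) hl0
      have := J.smul_mem (((n : ℂ) + 1) * l)⁻¹ h2
      rwa [smul_smul, inv_mul_cancel₀ hne, one_smul] at this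
  have hcl : IsClosed (J.toAddSubgroup : Set B) := hJc
  -- quotient norms
  set q : B → ℝ := fun x => ‖(Submodule.Quotient.mk x : B ⧸ J)‖ with hq
  have q1 : ∀ x y : B, q (x * y) ≤ ‖x‖ * q y := by
    intro x y
    refine le_of_forall_pos_le_add (fun ε hε => ?_)
    obtain ⟨m, hm, hm2⟩ := Submodule.Quotient.norm_mk_lt (Submodule.Quotient.mk y : B ⧸ J)
      (show 0 < ε / (‖x‖ + 1) by positivity)
    have e1 : (Submodule.Quotient.mk (x * y) : B ⧸ J) = Submodule.Quotient.mk (x * m) := by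
      rw [Submodule.Quotient.eq, ← mul_sub]
      apply hl
      rw [← Submodule.Quotient.eq]; exact hm.symm
    calc q (x * y) = ‖(Submodule.Quotient.mk (x * m) : B ⧸ J)‖ := by simp only [hq]; rw [e1]
      _ ≤ ‖x * m‖ := Submodule.Quotient.norm_mk_le _ _
      _ ≤ ‖x‖ * ‖m‖ := norm_mul_le _ _
      _ ≤ ‖x‖ * (q y + ε / (‖x‖ + 1)) := by gcongr
      _ = ‖x‖ * q y + ‖x‖ / (‖x‖ + 1) * ε := by ring
      _ ≤ ‖x‖ * q y + 1 * ε := by
          gcongr
          rw [div_le_one (by positivity)]; linarith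
      _ = ‖x‖ * q y + ε := by ring
  have q2 : ∀ x y : B, q (x * y) ≤ q x * ‖y‖ := by
    intro x y
    refine le_of_forall_pos_le_add (fun ε hε => ?_)
    obtain ⟨m, hm, hm2⟩ := Submodule.Quotient.norm_mk_lt (Submodule.Quotient.mk x : B ⧸ J)
      (show 0 < ε / (‖y‖ + 1) by positivity)
    have e1 : (Submodule.Quotient.mk (x * y) : B ⧸ J) = Submodule.Quotient.mk (m * y) := by
      rw [Submodule.Quotient.eq, ← sub_mul]
      apply hr
      rw [← Submodule.Quotient.eq]; exact hm.symm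
    calc q (x * y) = ‖(Submodule.Quotient.mk (m * y) : B ⧸ J)‖ := by simp only [hq]; rw [e1]
      _ ≤ ‖m * y‖ := Submodule.Quotient.norm_mk_le _ _
      _ ≤ ‖m‖ * ‖y‖ := norm_mul_le _ _
      _ ≤ (q x + ε / (‖y‖ + 1)) * ‖y‖ := by gcongr
      _ = q x * ‖y‖ + ‖y‖ / (‖y‖ + 1) * ε := by ring
      _ ≤ q x * ‖y‖ + 1 * ε := by
          gcongr
          rw [div_le_one (by positivity)]; linarith
      _ = q x * ‖y‖ + ε := by ring
  obtain ⟨n, hn⟩ := exists_nat_gt (2 * ‖f‖ * ‖e‖ / ‖l‖)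
  have hlpos : 0 < ‖l‖ := norm_pos_iff.mpr hl0
  apply hdesc n
  have h4 : ‖(((n : ℂ) + 1) * l)‖ * q (e ^ n) ≤ 2 * ‖f‖ * ‖e‖ * q (e ^ n) := by
    have e1 : (Submodule.Quotient.mk ((((n : ℂ) + 1) * l) • e ^ n) : B ⧸ J) =
        Submodule.Quotient.mk (e ^ (n + 1) * f - f * e ^ (n + 1)) := by
      rw [Submodule.Quotient.eq]
      have := J.neg_mem (h1 n)
      have e2 : -(e ^ (n + 1) * f - f * e ^ (n + 1) - (((n : ℂ) + 1) * l) • e ^ n) =
        (((n : ℂ) + 1) * l) • e ^ n - (e ^ (n + 1) * f - f * e ^ (n + 1)) := by abel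
      rwa [e2] at this
    calc ‖(((n : ℂ) + 1) * l)‖ * q (e ^ n) = ‖(Submodule.Quotient.mk ((((n : ℂ) + 1) * l) • e ^ n) : B ⧸ J)‖ := by
          rw [Submodule.Quotient.mk_smul, norm_smul]
      _ = ‖(Submodule.Quotient.mk (e ^ (n + 1) * f) : B ⧸ J) - Submodule.Quotient.mk (f * e ^ (n + 1))‖ := by
          rw [e1, Submodule.Quotient.mk_sub]
      _ ≤ q (e ^ (n + 1) * f) + q (f * e ^ (n + 1)) := norm_sub_le _ _
      _ ≤ q (e ^ (n + 1)) * ‖f‖ + ‖f‖ * q (e ^ (n + 1)) := add_le_add (q2 _ _) (q1 _ _)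
      _ = 2 * ‖f‖ * q (e ^ (n + 1)) := by ring
      _ ≤ 2 * ‖f‖ * (‖e‖ * q (e ^ n)) := by
          gcongr
          rw [pow_succ']
          exact q1 _ _
      _ = 2 * ‖f‖ * ‖e‖ * q (e ^ n) := by ring
  have h5 : 2 * ‖f‖ * ‖e‖ < ‖(((n : ℂ) + 1) * l)‖ := by
    rw [div_lt_iff₀ hlpos] at hn
    rw [norm_mul]
    have : ‖((n : ℂ) + 1)‖ = (n : ℝ) + 1 := by
      have : ((n : ℂ) + 1) = (((n : ℝ) + 1 : ℝ) : ℂ) := by push_cast; ring
      rw [this, Complex.norm_real, Real.norm_eq_abs, abs_of_nonneg (by positivity)]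
    rw [this]
    nlinarith
  have h6 : q (e ^ n) = 0 := by
    by_contra hne
    have hpos : 0 < q (e ^ n) := lt_of_le_of_ne (norm_nonneg _) (Ne.symm hne)
    have := lt_of_lt_of_le ((mul_lt_mul_iff_left₀ hpos).mpr h5) h4
    exact lt_irrefl _ this
  have h7 : (Submodule.Quotient.mk (e ^ n) : B ⧸ J) = 0 := by
    have hc : IsClosed (J : Set B) := hJc
    exact norm_eq_zero.mp h6
  rwa [Submodule.Quotient.mk_eq_zero] at h7

theorem wielandt (e f : B) (l : ℂ) (hl0 : l ≠ 0) : (1 : B) ∈ J2 (e * f - f * e - l • (1 : B)) := by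
  set β := e * f - f * e - l • (1 : B) with hβ
  set J := (J2 β).topologicalClosure with hJ
  have hJl : ∀ (w : B) {j : B}, j ∈ J → w * j ∈ J := by
    intro w j hj
    have := map_mem_closure (mL w).continuous (s := (J2 β : Set B)) (t := (J2 β : Set B)) hj (fun x hx => J2_mul_left hx w)
    exact this
  have hJr : ∀ (w : B) {j : B}, j ∈ J → j * w ∈ J := by
    intro w j hj
    have := map_mem_closure (mR w).continuous (s := (J2 β : Set B)) (t := (J2 β : Set B)) hj (fun x hx => J2_mul_right hx w)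
    exact this
  have hβJ : β ∈ J := (J2 β).le_topologicalClosure (Submodule.subset_span ⟨1, 1, by simp⟩)
  have h1 : (1 : B) ∈ J := wielandt_aux J (J2 β).isClosed_topologicalClosure hJl hJr e f l hl0 hβJ
  obtain ⟨j, hj, hd⟩ := Metric.mem_closure_iff.mp h1 1 one_pos
  rw [dist_eq_norm] at hd
  obtain ⟨u, hu⟩ : IsUnit j := by
    have := (Units.oneSub (1 - j) hd).isUnit
    simpa using this
  have h2 := J2_mul_right hj (↑u⁻¹ : B)
  rwa [← hu, Units.mul_inv] at h2

end Wielandt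

end Pool.Agent.Helper192.KP
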