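import Mathlib
import Pool.Agent.Helper192.KP.B

set_option autoImplicit false
set_option linter.unusedSectionVars false

open Filter Topology

noncomputable section

namespace Pool.Agent.Helper192.KP

section Exp

variable {𝔸 : Type*} [NormedRing 𝔸] [NormedAlgebra ℂ 𝔸] [CompleteSpace 𝔸]

theorem exp_cont : Continuous (NormedSpace.exp : 𝔸 → 𝔸) := by
  let _ : NormedAlgebra ℚ 𝔸 := NormedAlgebra.restrictScalars ℚ ℂ 𝔸
  exact NormedSpace.exp_continuous

theorem exp_neg_mul (x : 𝔸) : NormedSpace.exp (-x) * NormedSpace.exp x = 1 := by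
  let _ : NormedAlgebra ℚ 𝔸 := NormedAlgebra.restrictScalars ℚ ℂ 𝔸
  rw [← NormedSpace.exp_add_of_commute (Commute.neg_left (Commute.refl x)), neg_add_cancel, NormedSpace.exp_zero]

theorem exp_mul_neg (x : 𝔸) : NormedSpace.exp x * NormedSpace.exp (-x) = 1 := by
  have := exp_neg_mul (-x)
  rwa [neg_neg] at this

/-- the exponential as a unit -/
def expU (x : 𝔸) : 𝔸ˣ := ⟨NormedSpace.exp x, NormedSpace.exp (-x), exp_mul_neg x, exp_neg_mul x⟩

theorem exp_pow_nat (x : 𝔸) (n : ℕ) : NormedSpace.exp (n • x) = NormedSpace.exp x ^ n := by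
  let _ : NormedAlgebra ℚ 𝔸 := NormedAlgebra.restrictScalars ℚ ℂ 𝔸
  exact NormedSpace.exp_nsmul n x

theorem tendsto_inv_nat : Tendsto (fun n : ℕ => ((n : ℂ))⁻¹) atTop (𝓝[≠] 0) := by
  rw [tendsto_nhdsWithin_iff]
  refine ⟨?_, ?_⟩
  · have := tendsto_inv_atTop_nhds_zero_nat (𝕜 := ℂ)
    exact this
  · filter_upwards [eventually_ge_atTop 1] with n hn
    have : (n : ℂ) ≠ 0 := by exact_mod_cast (by omega : n ≠ 0)
    exact inv_ne_zero this

theorem lim_of_deriv {E : Type*} [NormedAddCommGroup E] [NormedSpace ℂ E] (f : ℂ → E) (f' : E) (h : HasDerivAt f f' 0) :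
    Tendsto (fun n : ℕ => (n : ℂ) • (f ((n : ℂ)⁻¹) - f 0)) atTop (𝓝 f') := by
  have h1 := hasDerivAt_iff_tendsto_slope_zero.mp h
  have h2 := h1.comp tendsto_inv_nat
  refine h2.congr (fun n => ?_)
  simp only [Function.comp, zero_add, inv_inv]

theorem lim_exp (X : 𝔸) : Tendsto (fun n : ℕ => (n : ℂ) • (NormedSpace.exp ((n : ℂ)⁻¹ • X) - 1)) atTop (𝓝 X) := by
  have h := hasDerivAt_exp_smul_const (𝕂 := ℂ) X 0
  rw [zero_smul, NormedSpace.exp_zero, one_mul] at h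
  have := lim_of_deriv _ _ h
  simpa using this

theorem lim_one {u : ℕ → 𝔸} {D : 𝔸} (h : Tendsto (fun n : ℕ => (n : ℂ) • (u n - 1)) atTop (𝓝 D)) :
    Tendsto u atTop (𝓝 1) := by
  have h0 : Tendsto (fun n : ℕ => ((n : ℂ))⁻¹) atTop (𝓝 0) := tendsto_inv_nat.mono_right nhdsWithin_le_nhds
  have h1 := h0.smul h
  rw [zero_smul] at h1
  have h2 : Tendsto (fun n => u n - 1) atTop (𝓝 0) := by
    refine h1.congr' ?_
    filter_upwards [eventually_ge_atTop 1] with n hn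
    have : (n : ℂ) ≠ 0 := by exact_mod_cast (by omega : n ≠ 0)
    rw [smul_smul, inv_mul_cancel₀ this, one_smul]
  have h3 := h2.add_const 1
  simpa using h3

theorem lim_mul {u v : ℕ → 𝔸} {D E : 𝔸} (hu : Tendsto (fun n : ℕ => (n : ℂ) • (u n - 1)) atTop (𝓝 D))
    (hv : Tendsto (fun n : ℕ => (n : ℂ) • (v n - 1)) atTop (𝓝 E)) :
    Tendsto (fun n : ℕ => (n : ℂ) • (u n * v n - 1)) atTop (𝓝 (D + E)) := by
  have h1 := (hu.mul (lim_one hv)).add hv
  rw [mul_one] at h1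
  refine h1.congr (fun n => ?_)
  rw [smul_mul_assoc, ← smul_add]
  congr 1
  noncomm_ring

theorem exp_neg_smul_mul (z : ℂ) (x : 𝔸) : NormedSpace.exp ((-z) • x) * NormedSpace.exp (z • x) = 1 := by
  rw [neg_smul]; exact exp_neg_mul _

theorem exp_zero_smul_mul (x : 𝔸) : NormedSpace.exp ((0 : ℂ) • x) * x = x := by
  rw [zero_smul, NormedSpace.exp_zero, one_mul]

theorem lim_exp_add (z : ℂ) (X Y : 𝔸) : Tendsto (fun n : ℕ => (n : ℂ) • (NormedSpace.exp ((n : ℂ)⁻¹ • z • X) *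
    NormedSpace.exp ((n : ℂ)⁻¹ • z • Y) - 1)) atTop (𝓝 (z • (X + Y))) := by
  have l1 := lim_mul (lim_exp (z • X)) (lim_exp (z • Y))
  rwa [← smul_add] at l1

theorem lim_exp_neg (X : 𝔸) : Tendsto (fun n : ℕ => (n : ℂ) • (NormedSpace.exp (-((n : ℂ)⁻¹ • X)) - 1)) atTop (𝓝 (-X)) := by
  have := lim_exp (-X)
  simpa only [smul_neg] using this

theorem pow_sub_pow_le (h1 : ‖(1 : 𝔸)‖ ≤ 1) (x y : 𝔸) (M : ℝ) (hM : 1 ≤ M) (hx : ‖x‖ ≤ M) (hy : ‖y‖ ≤ M) (n : ℕ) :
    ‖x ^ n - y ^ n‖ ≤ n * ‖x - y‖ * M ^ n := by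
  have hpow : ∀ n : ℕ, ‖x ^ n‖ ≤ M ^ n := by
    intro n
    rcases Nat.eq_zero_or_pos n with h | h
    · subst h; simpa using h1
    · exact (norm_pow_le' x h).trans (pow_le_pow_left₀ (norm_nonneg _) hx n)
  induction n with
  | zero => simp
  | succ n ih =>
    have e : x ^ (n + 1) - y ^ (n + 1) = x ^ n * (x - y) + (x ^ n - y ^ n) * y := by
      rw [pow_succ, pow_succ]; noncomm_ring
    rw [e]
    calc ‖x ^ n * (x - y) + (x ^ n - y ^ n) * y‖ ≤ ‖x ^ n‖ * ‖x - y‖ + ‖x ^ n - y ^ n‖ * ‖y‖ :=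
          (norm_add_le _ _).trans (add_le_add (norm_mul_le _ _) (norm_mul_le _ _))
      _ ≤ M ^ n * ‖x - y‖ + (n * ‖x - y‖ * M ^ n) * M := by
          gcongr
          exact hpow n
      _ ≤ M ^ n * M * ‖x - y‖ + (n * ‖x - y‖ * M ^ n) * M := by
          gcongr
          exact le_mul_of_one_le_right (by positivity) hM
      _ = ((n + 1 : ℕ) : ℝ) * ‖x - y‖ * M ^ (n + 1) := by push_cast; ring

theorem pow_lim (h1 : ‖(1 : 𝔸)‖ ≤ 1) {u : ℕ → 𝔸} {D : 𝔸} (h : Tendsto (fun n : ℕ => (n : ℂ) • (u n - 1)) atTop (𝓝 D)) :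
    Tendsto (fun n => u n ^ n) atTop (𝓝 (NormedSpace.exp D)) := by
  have hE := lim_exp D
  set v : ℕ → 𝔸 := fun n => NormedSpace.exp ((n : ℂ)⁻¹ • D) with hv
  set C : ℝ := ‖D‖ + 1 with hC
  have hu1 : ∀ᶠ n : ℕ in atTop, ‖(n : ℂ) • (u n - 1)‖ < C := h.norm.eventually (gt_mem_nhds (by rw [hC]; linarith))
  have hv1 : ∀ᶠ n : ℕ in atTop, ‖(n : ℂ) • (v n - 1)‖ < C := hE.norm.eventually (gt_mem_nhds (by rw [hC]; linarith))
  have hC0 : 0 ≤ C := by rw [hC]; positivity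
  have hd : Tendsto (fun n : ℕ => ‖(n : ℂ) • (u n - 1) - (n : ℂ) • (v n - 1)‖ * Real.exp C) atTop (𝓝 0) := by
    have := ((h.sub hE).norm).mul_const (Real.exp C)
    simpa using this
  have key : Tendsto (fun n => u n ^ n - v n ^ n) atTop (𝓝 0) := by
    refine squeeze_zero_norm' ?_ hd
    filter_upwards [hu1, hv1, eventually_ge_atTop 1] with n h2 h3 hn
    have hn0 : (0 : ℝ) < n := by exact_mod_cast hn
    have hb : ∀ w : 𝔸, ‖(n : ℂ) • (w - 1)‖ < C → ‖w‖ ≤ 1 + C / n := by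
      intro w hw
      rw [norm_smul, Complex.norm_natCast] at hw
      have h4 : ‖w - 1‖ ≤ C / n := by
        rw [le_div_iff₀ hn0]; linarith
      calc ‖w‖ = ‖1 + (w - 1)‖ := by congr 1; abel
        _ ≤ ‖(1 : 𝔸)‖ + ‖w - 1‖ := norm_add_le _ _
        _ ≤ 1 + C / n := add_le_add h1 h4
    have hM1 : 1 ≤ 1 + C / n := by
      have : 0 ≤ C / n := by positivity
      linarith
    have h5 := pow_sub_pow_le h1 (u n) (v n) (1 + C / n) hM1 (hb _ h2) (hb _ h3) n
    have h6 : (1 + C / n) ^ n ≤ Real.exp C := by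
      calc (1 + C / n) ^ n ≤ (Real.exp (C / n)) ^ n := by
            gcongr
            have := Real.add_one_le_exp (C / n)
            linarith
        _ = Real.exp C := by
            rw [← Real.exp_nat_mul]
            congr 1
            field_simp
    have h7 : ‖(n : ℂ) • (u n - 1) - (n : ℂ) • (v n - 1)‖ = n * ‖u n - v n‖ := by
      rw [← smul_sub, norm_smul, Complex.norm_natCast]
      congr 2
      abel
    rw [h7]
    calc ‖u n ^ n - v n ^ n‖ ≤ n * ‖u n - v n‖ * (1 + C / n) ^ n := h5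
      _ ≤ n * ‖u n - v n‖ * Real.exp C := by gcongr
  have hvn : ∀ᶠ n : ℕ in atTop, v n ^ n = NormedSpace.exp D := by
    filter_upwards [eventually_ge_atTop 1] with n hn
    have hn0 : (n : ℂ) ≠ 0 := by exact_mod_cast (by omega : n ≠ 0)
    simp only [hv]
    rw [← exp_pow_nat]
    congr 1
    rw [← Nat.cast_smul_eq_nsmul ℂ, smul_smul, mul_inv_cancel₀ hn0, one_smul]
  have h8 : Tendsto (fun n => (u n ^ n - v n ^ n) + NormedSpace.exp D) atTop (𝓝 (0 + NormedSpace.exp D)) := key.add_const _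
  rw [zero_add] at h8
  refine h8.congr' ?_
  filter_upwards [hvn] with n hn
  rw [hn]; abel

/-- Graves' theorem for `D ↦ exp D` -/
theorem graves {F : Type*} [NormedAddCommGroup F] [NormedSpace ℂ F] [CompleteSpace F] (ev : 𝔸 →L[ℂ] F) (G : Submodule ℂ 𝔸)
    (hG : IsClosed (G : Set 𝔸)) (L : Submodule ℂ F) (hL : IsClosed (L : Set F))
    (hsurj : ∀ c, ∃ D ∈ G, ∃ l ∈ L, ev D + l = c) :
    ∀ᶠ c in 𝓝 (ev 1), ∃ D ∈ G, ∃ l ∈ L, ev (NormedSpace.exp D) + l = c := by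
  have hc1 : CompleteSpace G := hG.completeSpace_coe
  have hc2 : CompleteSpace L := hL.completeSpace_coe
  set g1 : (G × L) →L[ℂ] 𝔸 := G.subtypeL.comp (ContinuousLinearMap.fst ℂ G L) with hg1
  set g2 : (G × L) →L[ℂ] F := L.subtypeL.comp (ContinuousLinearMap.snd ℂ G L) with hg2
  set f : G × L → F := fun p => ev (NormedSpace.exp (g1 p)) + g2 p with hf
  set f' : (G × L) →L[ℂ] F := ev.comp g1 + g2 with hf'
  have hder : HasStrictFDerivAt f f' 0 := by
    have d2 : HasStrictFDerivAt (NormedSpace.exp : 𝔸 → 𝔸) (1 : 𝔸 →L[ℂ] 𝔸) (g1 0) := by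
      rw [map_zero]
      exact (hasStrictFDerivAt_exp_zero (𝕂 := ℂ) (𝔸 := 𝔸))
    have d3 := d2.comp (0 : G × L) g1.hasStrictFDerivAt
    have d4 := ev.hasStrictFDerivAt.comp (0 : G × L) d3
    exact d4.add g2.hasStrictFDerivAt
  have hs : (f' : (G × L) →ₗ[ℂ] F).range = ⊤ := by
    rw [LinearMap.range_eq_top]
    intro c
    obtain ⟨D, hD, l, hl, h⟩ := hsurj c
    exact ⟨(⟨D, hD⟩, ⟨l, hl⟩), h⟩
  have hmap := HasStrictFDerivAt.map_nhds_eq_of_surj (f' := f') hder hs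
  have hf0 : f 0 = ev 1 := by
    simp only [hf]
    rw [map_zero, map_zero, NormedSpace.exp_zero, add_zero]
  have hrange : Set.range f ∈ 𝓝 (ev 1) := by
    rw [← hf0, ← hmap]
    exact range_mem_map
  filter_upwards [hrange] with c hc
  obtain ⟨⟨D, l⟩, h⟩ := hc
  exact ⟨D, D.2, l, l.2, h⟩

end Exp

section Gen

variable {B : Type*} [NormedRing B] [NormedAlgebra ℂ B] [CompleteSpace B]

/-- spectral isometry -/
def SI (Φ : B →L[ℂ] B) : Prop := ∀ b, r (Φ b) = r b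

theorem SI.mul {Φ Ψ : B →L[ℂ] B} (h : SI Φ) (h' : SI Ψ) : SI (Φ * Ψ) := fun b => (h _).trans (h' _)

theorem SI.one : SI (1 : B →L[ℂ] B) := fun _ => rfl

theorem SI.pow {Φ : B →L[ℂ] B} (h : SI Φ) (n : ℕ) : SI (Φ ^ n) := by
  induction n with
  | zero => rw [pow_zero]; exact SI.one
  | succ n ih => rw [pow_succ]; exact ih.mul h

theorem le_of_lim {u : ℕ → B →L[ℂ] B} (hu : ∀ n, SI (u n)) {D : B →L[ℂ] B}
    (h : Tendsto (fun n : ℕ => (n : ℂ) • (u n - 1)) atTop (𝓝 D)) (b : B) : r b ≤ r (NormedSpace.exp D b) := by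
  have h1 := pow_lim (ContinuousLinearMap.norm_id_le) h
  have h2 : Tendsto (fun n => (u n ^ n) b) atTop (𝓝 (NormedSpace.exp D b)) :=
    ((ContinuousLinearMap.apply ℂ B b).continuous.tendsto _).comp h1
  exact le_r_of_tendsto _ _ h2 _ (Eventually.of_forall fun n => ((hu n).pow n b).ge)

/-- generators of holomorphic groups of spectral isometries -/
def GG (B : Type*) [NormedRing B] [NormedAlgebra ℂ B] [CompleteSpace B] : Submodule ℂ (B →L[ℂ] B) where
  carrier := {D | ∀ (z : ℂ) (b : B), r b ≤ r (NormedSpace.exp (z • D) b)}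
  add_mem' := by
    intro D E hD hE z b
    have s1 : ∀ (F : B →L[ℂ] B), (∀ (z : ℂ) (b : B), r b ≤ r (NormedSpace.exp (z • F) b)) → ∀ z : ℂ, SI (NormedSpace.exp (z • F)) := by
      intro F hF z b
      refine le_antisymm ?_ (hF z b)
      have := hF (-z) (NormedSpace.exp (z • F) b)
      have e : NormedSpace.exp ((-z) • F) (NormedSpace.exp (z • F) b) = b := by
        have h1 : NormedSpace.exp ((-z) • F) * NormedSpace.exp (z • F) = 1 := exp_neg_smul_mul z F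
        calc NormedSpace.exp ((-z) • F) (NormedSpace.exp (z • F) b) = (NormedSpace.exp ((-z) • F) * NormedSpace.exp (z • F)) b := rfl
          _ = b := by rw [h1]; rfl
      rwa [e] at this
    refine le_of_lim (fun n => ?_) (lim_exp_add z D E) b
    have e : ∀ F : B →L[ℂ] B, (n : ℂ)⁻¹ • z • F = ((n : ℂ)⁻¹ * z) • F := fun F => smul_smul _ _ _
    rw [e, e]
    exact (s1 D hD _).mul (s1 E hE _)
  zero_mem' := by
    intro z b
    rw [smul_zero, NormedSpace.exp_zero]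
    exact le_rfl
  smul_mem' := by
    intro a D hD z b
    rw [smul_smul]
    exact hD _ b

theorem mem_GG {D : B →L[ℂ] B} : D ∈ GG B ↔ ∀ (z : ℂ) (b : B), r b ≤ r (NormedSpace.exp (z • D) b) := Iff.rfl

theorem GG_SI {D : B →L[ℂ] B} (hF : D ∈ GG B) (z : ℂ) : SI (NormedSpace.exp (z • D)) := by
  intro b
  refine le_antisymm ?_ (hF z b)
  have := hF (-z) (NormedSpace.exp (z • D) b)
  have e : NormedSpace.exp ((-z) • D) (NormedSpace.exp (z • D) b) = b := by
    have h1 : NormedSpace.exp ((-z) • D) * NormedSpace.exp (z • D) = 1 := exp_neg_smul_mul z D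
    calc NormedSpace.exp ((-z) • D) (NormedSpace.exp (z • D) b) = (NormedSpace.exp ((-z) • D) * NormedSpace.exp (z • D)) b := rfl
      _ = b := by rw [h1]; rfl
  rwa [e] at this

theorem GG_closed : IsClosed ((GG B : Submodule ℂ (B →L[ℂ] B)) : Set (B →L[ℂ] B)) := by
  rw [← isSeqClosed_iff_isClosed]
  intro u D hu hD z b
  have h1 : Tendsto (fun n => NormedSpace.exp (z • u n) b) atTop (𝓝 (NormedSpace.exp (z • D) b)) :=
    ((ContinuousLinearMap.apply ℂ B b).continuous.tendsto _).comp ((exp_cont.tendsto _).comp (hD.const_smul z))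
  exact le_r_of_tendsto _ _ h1 _ (Eventually.of_forall fun n => hu n z b)

/-- membership through approximation by spectral isometries -/
theorem GG_of_lim {D : B →L[ℂ] B} (h : ∀ z : ℂ, ∃ u : ℕ → B →L[ℂ] B, (∀ n, SI (u n)) ∧
    Tendsto (fun n : ℕ => (n : ℂ) • (u n - 1)) atTop (𝓝 (z • D))) : D ∈ GG B := by
  intro z b
  obtain ⟨u, hu, hl⟩ := h z
  exact le_of_lim hu hl b

theorem mL_one : mL (1 : B) = 1 := by ext b; simp
theorem mR_one : mR (1 : B) = 1 := by ext b; simp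

/-- `mL` as a continuous linear map -/
def mLL (B : Type*) [NormedRing B] [NormedAlgebra ℂ B] [CompleteSpace B] : B →L[ℂ] (B →L[ℂ] B) := ContinuousLinearMap.mul ℂ B
def mRL (B : Type*) [NormedRing B] [NormedAlgebra ℂ B] [CompleteSpace B] : B →L[ℂ] (B →L[ℂ] B) := (ContinuousLinearMap.mul ℂ B).flip

theorem mLL_apply (u : B) : mLL B u = mL u := rfl
theorem mRL_apply (u : B) : mRL B u = mR u := rfl

theorem ad_mem (u : B) : mL u - mR u ∈ GG B := by
  refine GG_of_lim (fun z => ?_)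
  have l1 : Tendsto (fun n : ℕ => (n : ℂ) • (mL (NormedSpace.exp ((n : ℂ)⁻¹ • (z • u))) - 1)) atTop (𝓝 (mL (z • u))) := by
    have := ((mLL B).continuous.tendsto _).comp (lim_exp (z • u))
    refine this.congr (fun n => ?_)
    simp only [Function.comp]
    rw [map_smul, map_sub, mLL_apply, mLL_apply, mL_one]
  have l2 : Tendsto (fun n : ℕ => (n : ℂ) • (mR (NormedSpace.exp (-((n : ℂ)⁻¹ • (z • u)))) - 1)) atTop (𝓝 (mR (-(z • u)))) := by
    have := ((mRL B).continuous.tendsto _).comp (lim_exp_neg (z • u))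
    refine this.congr (fun n => ?_)
    simp only [Function.comp]
    rw [map_smul, map_sub, mRL_apply, mRL_apply, mR_one]
  refine ⟨fun n => mL (NormedSpace.exp ((n : ℂ)⁻¹ • (z • u))) * mR (NormedSpace.exp (-((n : ℂ)⁻¹ • (z • u)))), fun n b => ?_, ?_⟩
  · have h := r_conj (expU ((n : ℂ)⁻¹ • (z • u))) b
    show r (NormedSpace.exp ((n : ℂ)⁻¹ • (z • u)) * (b * NormedSpace.exp (-((n : ℂ)⁻¹ • (z • u))))) = r b
    rw [← mul_assoc]
    exact h
  · have := lim_mul l1 l2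
    have e : mL (z • u) + mR (-(z • u)) = z • (mL u - mR u) := by
      rw [← mLL_apply, ← mRL_apply, map_neg, map_smul, map_smul, mLL_apply, mRL_apply, smul_sub, sub_eq_add_neg]
    rwa [e] at this

variable {L : Submodule ℂ B}

theorem exists_dir (l0 : ℂ) : ∃ u : ℂ, ‖u‖ = 1 ∧ ∀ s : ℝ, 0 ≤ s → ‖l0 + (s : ℂ) * u‖ = ‖l0‖ + s := by
  by_cases h : l0 = 0
  · refine ⟨1, norm_one, fun s hs => ?_⟩
    rw [h]; simp [abs_of_nonneg hs]
  · have hn : (‖l0‖ : ℂ) ≠ 0 := by exact_mod_cast (norm_pos_iff.mpr h).ne'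
    refine ⟨l0 / ‖l0‖, ?_, fun s hs => ?_⟩
    · rw [norm_div, Complex.norm_real, norm_norm, div_self (norm_pos_iff.mpr h).ne']
    · have e : l0 + (s : ℂ) * (l0 / ‖l0‖) = ((‖l0‖ + s : ℝ) : ℂ) * (l0 / ‖l0‖) := by
        push_cast; field_simp
      rw [e, norm_mul, norm_div, Complex.norm_real, Complex.norm_real, norm_norm, div_self (norm_pos_iff.mpr h).ne', mul_one,
        Real.norm_eq_abs, abs_of_nonneg (by positivity)]

/-- the space `{D b₀ | D ∈ G} + L` -/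
def VL (b0 : B) (L : Submodule ℂ B) : Submodule ℂ B :=
  ((GG B).map (ContinuousLinearMap.apply ℂ B b0 : (B →L[ℂ] B) →L[ℂ] B).toLinearMap) ⊔ L

theorem VL_D {b0 : B} {D : B →L[ℂ] B} (hD : D ∈ GG B) : D b0 ∈ VL b0 L :=
  (le_sup_left : _ ≤ VL b0 L) ⟨D, hD, rfl⟩

theorem VL_L {b0 : B} {l : B} (hl : l ∈ L) : l ∈ VL b0 L := (le_sup_right : L ≤ VL b0 L) hl

/-- at a peripheral eigenvector the map `D ↦ D b₀ + L` is not onto (Graves' theorem) -/
theorem VL_ne_top (b0 : B) (l0 : ℂ) (h0 : ‖l0‖ = r b0) (hL : ML L) (hb : b0 - l0 • (1 : B) ∈ L) : VL b0 L ≠ ⊤ := by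
  intro htop
  set ev : (B →L[ℂ] B) →L[ℂ] B := ContinuousLinearMap.apply ℂ B b0 with hev
  have hrange : ∀ᶠ c in 𝓝 b0, ∃ D ∈ GG B, ∃ l ∈ L, ev (NormedSpace.exp D) + l = c := by
    refine graves ev (GG B) GG_closed L hL.closed ?_
    intro c
    have hc : c ∈ VL b0 L := by rw [htop]; trivial
    obtain ⟨x, hx, l, hl, hxl⟩ := Submodule.mem_sup.mp hc
    obtain ⟨D, hD, rfl⟩ := hx
    exact ⟨D, hD, l, hl, hxl⟩
  obtain ⟨u, hu1, hu⟩ := exists_dir l0
  have htend : Tendsto (fun s : ℝ => b0 + ((s : ℂ) * u) • (1 : B)) (𝓝[>] 0) (𝓝 b0) := by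
    have h1 : Continuous (fun s : ℝ => b0 + ((s : ℂ) * u) • (1 : B)) := by fun_prop
    have h2 := h1.tendsto 0
    simp only [Complex.ofReal_zero, zero_mul, zero_smul, add_zero] at h2
    exact h2.mono_left nhdsWithin_le_nhds
  obtain ⟨s, hs1, hs2⟩ := ((htend.eventually hrange).and self_mem_nhdsWithin).exists
  obtain ⟨D, hD, l, hl, hDl⟩ := hs1
  have hs0 : (0 : ℝ) < s := hs2
  have e1 : NormedSpace.exp (D : B →L[ℂ] B) b0 + (l : B) = b0 + ((s : ℂ) * u) • (1 : B) := hDl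
  have e2 : NormedSpace.exp (D : B →L[ℂ] B) b0 - (l0 + (s : ℂ) * u) • (1 : B) ∈ L := by
    have : NormedSpace.exp (D : B →L[ℂ] B) b0 - (l0 + (s : ℂ) * u) • (1 : B) = (b0 - l0 • (1 : B)) - (l : B) := by
      rw [add_smul]
      have e3 : NormedSpace.exp (D : B →L[ℂ] B) b0 = b0 + ((s : ℂ) * u) • (1 : B) - (l : B) := by rw [← e1]; abel
      rw [e3]; abel
    rw [this]
    exact L.sub_mem hb hl
  have e4 := norm_le_r (hL.mem_spectrum e2)
  have e5 : r (NormedSpace.exp (D : B →L[ℂ] B) b0) = r b0 := by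
    have := GG_SI hD 1 b0
    rwa [one_smul] at this
  rw [e5, ← h0, hu s hs0.le] at e4
  linarith

end Gen

end Pool.Agent.Helper192.KP
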