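import Mathlib
import Pool.Agent.Helper192.KP.C

set_option autoImplicit false
set_option linter.unusedSectionVars false

open Filter Topology

noncomputable section

namespace Pool.Agent.Helper192.KP

variable {B : Type*} [NormedRing B] [NormedAlgebra ℂ B] [CompleteSpace B] {L : Submodule ℂ B}

/-- if `φ` kills `c * w` for all `c` and `w ≡ 1 mod L` then `φ = 0` -/
theorem phi_zero (hL : ML L) (φ : B →ₗ[ℂ] ℂ) (hφL : ∀ l ∈ L, φ l = 0) (w : B) (hw : w - 1 ∈ L) (h : ∀ c, φ (c * w) = 0) : φ = 0 := by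
  ext c
  have e : c = c * w - c * (w - 1) := by noncomm_ring
  rw [e, map_sub, h, hφL _ (hL.mul_mem c hw)]
  simp

/-- the algebraic lemma -/
theorem alg_lemma (hL : ML L) (φ : B →ₗ[ℂ] ℂ) (hφ : φ ≠ 0) (hφL : ∀ l ∈ L, φ l = 0) (g : B →ₗ[ℂ] B)
    (h1 : ∀ x, φ (x * g x) = 0) (h2 : ∀ x, φ (x * (x * g x)) = 0) (β : B) (hβ : ∀ u, φ (β * u) = 0) (hβP : β ∉ PL L) :
    ∀ x, g x ∈ L := by
  have p1 : ∀ x u, φ (x * g u) + φ (u * g x) = 0 := by
    intro x u
    have e := h1 (x + u)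
    have e2 : (x + u) * g (x + u) = x * g x + u * g u + (x * g u + u * g x) := by
      rw [map_add]; noncomm_ring
    rw [e2, map_add, map_add, h1, h1, zero_add, zero_add, map_add] at e
    exact e
  have p2 : ∀ x u, φ (x * (x * g u)) + φ (x * (u * g x)) + φ (u * (x * g x)) = 0 := by
    intro x u
    have e1 := h2 (x + u)
    have e2 := h2 (x - u)
    have e3 := h2 u
    have e4 : (x + u) * ((x + u) * g (x + u)) - (x - u) * ((x - u) * g (x - u)) =
        2 • (x * (x * g u) + x * (u * g x) + u * (x * g x)) + 2 • (u * (u * g u)) := by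
      rw [map_add, map_sub]; noncomm_ring
    have e5 := congrArg φ e4
    rw [map_sub, e1, e2, map_add, map_nsmul, map_nsmul, e3, smul_zero, add_zero, sub_zero, map_add, map_add] at e5
    have e6 : (2 : ℕ) • (φ (x * (x * g u)) + φ (x * (u * g x)) + φ (u * (x * g x))) = 0 := e5.symm
    rw [nsmul_eq_mul] at e6
    have h20 : ((2 : ℕ) : ℂ) ≠ 0 := by norm_num
    exact (mul_eq_zero.mp e6).resolve_left h20
  set K : B → Prop := fun k => ∀ b, φ (k * b) = 0 with hK
  have Kr : ∀ k, K k → ∀ b, K (k * b) := fun k hk b c => by rw [mul_assoc]; exact hk _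
  have gk : ∀ k, K k → g k ∈ L := by
    intro k hk
    by_contra hcon
    obtain ⟨u, hu⟩ := hL.max _ hcon
    apply hφ
    refine phi_zero hL φ hφL _ hu (fun c => ?_)
    have := p1 k (c * u)
    rw [hk, zero_add] at this
    rwa [← mul_assoc]
  have xk : ∀ x, g x ∉ L → ∀ k, K k → K (x * k) := by
    intro x hx k hk b
    obtain ⟨u, hu⟩ := hL.max _ hx
    have e1 : x * k * b = x * ((k * (b * u)) * g x) - (x * k * b) * (u * g x - 1) := by noncomm_ring
    rw [e1, map_sub, hφL _ (hL.mul_mem _ hu), sub_zero]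
    have h3 := p2 x (k * (b * u))
    have h4 : φ (x * (x * g (k * (b * u)))) = 0 := hφL _ (hL.mul_mem _ (hL.mul_mem _ (gk _ (Kr k hk _))))
    have h5 : φ ((k * (b * u)) * (x * g x)) = 0 := by rw [mul_assoc]; exact hk _
    rw [h4, h5, zero_add, add_zero] at h3
    exact h3
  by_contra hcon
  push Not at hcon
  obtain ⟨x0, hx0⟩ := hcon
  have K2 : ∀ x k, K k → K (x * k) := by
    intro x k hk
    by_cases hx : g x ∈ L
    · have h3 : g (x + x0) ∉ L := by
        intro h4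
        rw [map_add] at h4
        exact hx0 ((L.add_mem_iff_right hx).mp h4)
      have h5 := xk _ h3 k hk
      have h6 := xk _ hx0 k hk
      intro b
      have := h5 b
      rw [add_mul, add_mul, map_add, h6 b, add_zero] at this
      exact this
    · exact xk x hx k hk
  have KL : ∀ k, K k → k ∈ L := by
    intro k hk
    by_contra hkL
    obtain ⟨u, hu⟩ := hL.max _ hkL
    apply hφ
    refine phi_zero hL φ hφL _ hu (fun c => ?_)
    have := K2 c _ (K2 u k hk) 1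
    rwa [mul_one] at this
  exact hβP (fun b => KL _ (Kr β hβ b))

/-- the coboundary of `D` -/
def om (D : B →L[ℂ] B) (x b : B) : B := D (x * b) - x * D b - D x * b

/-- `om D x` as an operator -/
def omL (D : B →L[ℂ] B) (x : B) : B →L[ℂ] B := D * mL x - mL x * D - mL (D x)

theorem omL_apply (D : B →L[ℂ] B) (x b : B) : omL D x b = om D x b := rfl

/-- hypotheses on `D` -/
structure Adm (D : B →L[ℂ] B) : Prop where
  one : D 1 = 0
  mem : D ∈ GG B
  mem1 : ∀ x, mL x * omL D x ∈ GG B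
  mem2 : ∀ x, mL x * (mL x * omL D x) ∈ GG B

variable {D : B →L[ℂ] B}

theorem om_one (hD : Adm D) (x : B) : om D x 1 = 0 := by
  simp [om, hD.one]

theorem om_add_right (x b c : B) : om D x (b + c) = om D x b + om D x c := by
  rw [← omL_apply, map_add]; rfl

theorem om_sub_right (x b c : B) : om D x (b - c) = om D x b - om D x c := by
  rw [← omL_apply, map_sub]; rfl

theorem om_smul_right (x b : B) (z : ℂ) : om D x (z • b) = z • om D x b := by
  rw [← omL_apply, map_smul]; rfl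

theorem om_add_left (x y b : B) : om D (x + y) b = om D x b + om D y b := by
  unfold om
  rw [add_mul, map_add, map_add]
  noncomm_ring

theorem om_smul_left (x b : B) (z : ℂ) : om D (z • x) b = z • om D x b := by
  unfold om
  rw [smul_mul_assoc, map_smul, map_smul, smul_mul_assoc, smul_mul_assoc, smul_sub, smul_sub]

theorem om_cocycle (x y z : B) : om D x (y * z) = om D (x * y) z - x * om D y z + om D x y * z := by
  unfold om
  rw [← mul_assoc]
  noncomm_ring

/-- step 6 -/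
theorem step6 (hD : Adm D) (hL : ML L) (b0 : B) (l0 : ℂ) (h0 : ‖l0‖ = r b0) (hb : b0 - l0 • (1 : B) ∈ L)
    (hβ : b0 - l0 • (1 : B) ∉ PL L) : ∀ x, om D x b0 ∈ L := by
  have hne := VL_ne_top b0 l0 h0 hL hb
  obtain ⟨φ, hφ, hker⟩ := Submodule.exists_le_ker_of_lt_top _ (lt_top_iff_ne_top.mpr hne)
  have hz : ∀ v ∈ VL b0 L, φ v = 0 := fun v hv => hker hv
  set g : B →ₗ[ℂ] B :=
    { toFun := fun x => om D x b0
      map_add' := fun x y => om_add_left x y b0
      map_smul' := fun z x => om_smul_left x b0 z } with hg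
  refine alg_lemma hL φ hφ (fun l hl => hz l (VL_L hl)) g (fun x => ?_) (fun x => ?_) (b0 - l0 • (1 : B)) (fun u => ?_) hβ
  · exact hz _ (VL_D (hD.mem1 x))
  · exact hz _ (VL_D (hD.mem2 x))
  · refine hz _ ?_
    have h1 : u * b0 - b0 * u ∈ VL b0 L := VL_D (ad_mem u)
    have h2 : u * (b0 - l0 • (1 : B)) ∈ VL b0 L := VL_L (hL.mul_mem u hb)
    have h3 := (VL b0 L).sub_mem h2 h1
    have e : u * (b0 - l0 • (1 : B)) - (u * b0 - b0 * u) = (b0 - l0 • (1 : B)) * u := by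
      rw [mul_sub, sub_mul, mul_smul_comm, smul_mul_assoc, mul_one, one_mul]; abel
    rwa [e] at h3

/-- peripheral data -/
structure Per (b0 : B) (l0 : ℂ) (L : Submodule ℂ B) : Prop where
  ml : ML L
  nrm : ‖l0‖ = r b0
  mem : b0 - l0 • (1 : B) ∈ L
  one : (1 : B) ∈ J2 (b0 - l0 • (1 : B))

theorem J2_le_PL (hL : ML L) {β : B} (h : β ∈ PL L) : J2 β ≤ PL L := by
  refine Submodule.span_le.mpr ?_
  rintro x ⟨u, v, rfl⟩
  exact PL_mul_right (hL.PL_mul_left h u) v

theorem Per.not_PL {b0 : B} {l0 : ℂ} (h : Per b0 l0 L) : b0 - l0 • (1 : B) ∉ PL L := fun hc =>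
  h.ml.one_notMem (PL_le (J2_le_PL h.ml hc h.one))

theorem Per.conj {b0 : B} {l0 : ℂ} (h : Per b0 l0 L) (g : Bˣ) : Per ((g : B) * b0 * (↑g⁻¹ : B)) l0 (cj L (g : B)) := by
  have e : (g : B) * b0 * (↑g⁻¹ : B) - l0 • (1 : B) = (g : B) * (b0 - l0 • (1 : B)) * (↑g⁻¹ : B) := by
    rw [mul_sub, sub_mul, mul_smul_comm, mul_one, smul_mul_assoc, Units.mul_inv]
  refine ⟨h.ml.cj g, ?_, ?_, ?_⟩
  · rw [r_conj]; exact h.nrm
  · rw [e, mem_cj, mul_assoc, Units.inv_mul, mul_one]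
    exact h.ml.mul_mem _ h.mem
  · rw [e]
    have hle : J2 (b0 - l0 • (1 : B)) ≤ J2 ((g : B) * (b0 - l0 • (1 : B)) * (↑g⁻¹ : B)) := by
      refine Submodule.span_le.mpr ?_
      rintro x ⟨u, v, rfl⟩
      refine Submodule.subset_span ⟨u * (↑g⁻¹ : B), (g : B) * v, ?_⟩
      simp only [mul_assoc, Units.inv_mul_cancel_left]
    exact hle h.one

theorem Per.om_mem (hD : Adm D) {b0 : B} {l0 : ℂ} (h : Per b0 l0 L) (x : B) : om D x b0 ∈ L :=
  step6 hD h.ml b0 l0 h.nrm h.mem h.not_PL x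

/-- the left ideal `N'` -/
def NN (D : B →L[ℂ] B) (L : Submodule ℂ B) (n : B) : Prop := n ∈ L ∧ ∀ x, om D x n ∈ L

theorem NN_mul (hL : ML L) {n : B} (hn : NN D L n) (u : B) : NN D L (u * n) := by
  refine ⟨hL.mul_mem u hn.1, fun x => ?_⟩
  rw [om_cocycle]
  exact L.add_mem (L.sub_mem (hn.2 _) (hL.mul_mem _ (hn.2 _))) (hL.mul_mem _ hn.1)

theorem NN_sub {n m : B} (hn : NN D L n) (hm : NN D L m) : NN D L (n - m) :=
  ⟨L.sub_mem hn.1 hm.1, fun x => by rw [om_sub_right]; exact L.sub_mem (hn.2 x) (hm.2 x)⟩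

theorem NN_add {n m : B} (hn : NN D L n) (hm : NN D L m) : NN D L (n + m) :=
  ⟨L.add_mem hn.1 hm.1, fun x => by rw [om_add_right]; exact L.add_mem (hn.2 x) (hm.2 x)⟩

theorem NN_smul {n : B} (hn : NN D L n) (z : ℂ) : NN D L (z • n) :=
  ⟨L.smul_mem z hn.1, fun x => by rw [om_smul_right]; exact L.smul_mem z (hn.2 x)⟩

theorem NN_zero : NN D L 0 := ⟨L.zero_mem, fun x => by
  have : om D x 0 = 0 := by rw [← omL_apply, map_zero]
  rw [this]; exact L.zero_mem⟩

/-- step 7a -/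
theorem step7a (hD : Adm D) {b0 : B} {l0 : ℂ} (h : Per b0 l0 L) (k : B) (hk : k ∈ L) : NN D L ((b0 - l0 • (1 : B)) * k) := by
  set β := b0 - l0 • (1 : B) with hβ
  -- for units `g` with `g - 1 ∈ L`
  have key : ∀ g : Bˣ, (g : B) - 1 ∈ L → NN D L (β * (g : B)) := by
    intro g hg
    have hgi : (↑g⁻¹ : B) - 1 ∈ L := by
      have e : (↑g⁻¹ : B) - 1 = -((↑g⁻¹ : B) * ((g : B) - 1)) := by
        rw [mul_sub, Units.inv_mul, mul_one]; abel
      rw [e]; exact L.neg_mem (h.ml.mul_mem _ hg)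
    have hcj : ∀ c, c ∈ cj L (↑g⁻¹ : B) → c ∈ L := by
      intro c hc
      rw [mem_cj] at hc
      have e : c = c * (↑g⁻¹ : B) - c * ((↑g⁻¹ : B) - 1) := by noncomm_ring
      rw [e]; exact L.sub_mem hc (h.ml.mul_mem _ hgi)
    have hp := h.conj g⁻¹
    rw [inv_inv] at hp
    have h1 : (↑g⁻¹ : B) * b0 * (g : B) - l0 • (1 : B) = (↑g⁻¹ : B) * (β * (g : B)) := by
      rw [hβ, sub_mul, mul_sub, smul_mul_assoc, one_mul, mul_smul_comm, Units.inv_mul, mul_assoc]
    have h2 : NN D L ((↑g⁻¹ : B) * (β * (g : B))) := by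
      refine ⟨?_, fun x => ?_⟩
      · rw [← h1]; exact hcj _ hp.mem
      · rw [← h1, om_sub_right, om_smul_right, om_one hD, smul_zero, sub_zero]
        exact hcj _ (hp.om_mem hD x)
    have h3 := NN_mul h.ml h2 (g : B)
    rwa [Units.mul_inv_cancel_left] at h3
  obtain ⟨t, ⟨g, hg⟩, ht0⟩ := ((eventually_unit k).and self_mem_nhdsWithin).exists
  have ht0' : t ≠ 0 := ht0
  have h1 : NN D L (β * (g : B)) := key g (by rw [hg]; simpa using L.smul_mem t hk)
  have h2 : NN D L (β * ((1 : Bˣ) : B)) := key 1 (by simp)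
  have h3 := NN_smul (NN_sub h1 h2) t⁻¹
  have e : t⁻¹ • (β * (g : B) - β * ((1 : Bˣ) : B)) = β * k := by
    rw [hg, Units.val_one, mul_add, mul_one, add_sub_cancel_left, mul_smul_comm, smul_smul, inv_mul_cancel₀ ht0', one_smul]
  rwa [e] at h3

/-- step 7b -/
theorem step7b (hD : Adm D) {b0 : B} {l0 : ℂ} (h : Per b0 l0 L) (l : B) (hl : l ∈ L) (x : B) : om D x l ∈ L := by
  have key : ∀ j ∈ J2 (b0 - l0 • (1 : B)), NN D L (j * l) := by
    intro j hj
    refine Submodule.span_induction (p := fun j _ => NN D L (j * l)) ?_ ?_ ?_ ?_ hj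
    · rintro y ⟨u, v, rfl⟩
      have := NN_mul h.ml (step7a hD h (v * l) (h.ml.mul_mem v hl)) u
      have e : u * (b0 - l0 • (1 : B)) * v * l = u * ((b0 - l0 • (1 : B)) * (v * l)) := by simp only [mul_assoc]
      rw [e]; exact this
    · rw [zero_mul]; exact NN_zero
    · intro y z _ _ hy hz
      rw [add_mul]; exact NN_add hy hz
    · intro a y _ hy
      rw [smul_mul_assoc]; exact NN_smul hy a
  have := (key 1 h.one).2 x
  rwa [one_mul] at this

/-- step 7 -/
theorem step7 (hD : Adm D) {b0 : B} {l0 : ℂ} (h : Per b0 l0 L) (x b : B) : om D x b ∈ PL L := by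
  have hL := h.ml
  -- the defect
  set Γ : B → B → B := fun l u => om D x (l * u) - om D x l * u with hΓ
  have Γadd : ∀ l u v, Γ l (u + v) = Γ l u + Γ l v := by
    intro l u v
    simp only [hΓ]
    rw [mul_add, om_add_right]; noncomm_ring
  have Γsub : ∀ l u v, Γ l (u - v) = Γ l u - Γ l v := by
    intro l u v
    simp only [hΓ]
    rw [mul_sub, om_sub_right]; noncomm_ring
  have Γmem : ∀ l ∈ L, ∀ u, Γ l u ∈ L ∧ Γ l u * u ∈ L ∧ Γ l u * u * u ∈ L := by
    intro l hl u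
    refine expand L hL.closed (mR u) (Γ l u) ?_
    filter_upwards [eventually_unit u, self_mem_nhdsWithin] with t ht ht0
    obtain ⟨g, hg⟩ := ht
    have ht0' : t ≠ 0 := ht0
    have hp := h.conj g⁻¹
    have h1 : l * (g : B) ∈ cj L (↑g⁻¹ : B) := by
      rw [mem_cj, mul_assoc, Units.mul_inv, mul_one]; exact hl
    have h2 := step7b hD hp (l * (g : B)) h1 x
    rw [mem_cj] at h2
    refine ⟨t⁻¹ • (om D x (l * (g : B)) * (↑g⁻¹ : B) - om D x l), ?_, ?_⟩
    · exact L.smul_mem _ (L.sub_mem h2 (step7b hD h l hl x))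
    · have e1 : ∀ w : B, w + t • mR u w = w * (g : B) := by
        intro w
        rw [hg, mR_apply, mul_add, mul_one, mul_smul_comm]
      rw [e1, smul_mul_assoc, sub_mul, mul_assoc, Units.inv_mul, mul_one, hg]
      have e2 : om D x (l * (1 + t • u)) - om D x l * (1 + t • u) = t • Γ l u := by
        simp only [hΓ]
        rw [mul_add, mul_add, mul_one, mul_one, mul_smul_comm, mul_smul_comm, om_add_right, om_smul_right, smul_sub]
        abel
      rw [e2, smul_smul, inv_mul_cancel₀ ht0', one_smul]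
  have q1 : ∀ l ∈ L, ∀ u v, Γ l u * v + Γ l v * u ∈ L := by
    intro l hl u v
    have h1 := (Γmem l hl (u + v)).2.1
    have h2 := (Γmem l hl u).2.1
    have h3 := (Γmem l hl v).2.1
    rw [Γadd] at h1
    have e : Γ l u * v + Γ l v * u = (Γ l u + Γ l v) * (u + v) - Γ l u * u - Γ l v * v := by noncomm_ring
    rw [e]
    exact L.sub_mem (L.sub_mem h1 h2) h3
  have q2 : ∀ l ∈ L, ∀ u v, Γ l v * u * u + Γ l u * v * u + Γ l u * u * v ∈ L := by
    intro l hl u v
    have h1 := (Γmem l hl (u + v)).2.2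
    have h2 := (Γmem l hl (u - v)).2.2
    have h3 := (Γmem l hl v).2.2
    rw [Γadd] at h1
    rw [Γsub] at h2
    have e : (2 : ℂ) • (Γ l v * u * u + Γ l u * v * u + Γ l u * u * v) =
        (Γ l u + Γ l v) * (u + v) * (u + v) - (Γ l u - Γ l v) * (u - v) * (u - v) - (2 : ℂ) • (Γ l v * v * v) := by
      have e2 : ∀ w : B, (2 : ℂ) • w = w + w := fun w => two_smul ℂ w
      rw [e2, e2]
      noncomm_ring
    have h4 := L.sub_mem (L.sub_mem h1 h2) (L.smul_mem (2 : ℂ) h3)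
    rw [← e] at h4
    have h5 := L.smul_mem (2 : ℂ)⁻¹ h4
    rwa [smul_smul, inv_mul_cancel₀ (two_ne_zero), one_smul] at h5
  have s1 : ∀ l ∈ L, ∀ v ∈ L, ∀ u, Γ l v * u ∈ L := by
    intro l hl v hv u
    have h1 := q1 l hl u v
    exact (L.add_mem_iff_right (hL.mul_mem _ hv)).mp h1
  have s2 : ∀ l ∈ L, ∀ v ∈ L, ∀ u, Γ l u * v * u ∈ L := by
    intro l hl v hv u
    have h1 := q2 l hl u v
    have h2 : Γ l v * u * u ∈ L := by rw [mul_assoc]; exact s1 l hl v hv _
    have h3 : Γ l u * u * v ∈ L := hL.mul_mem _ hv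
    have h4 := (L.add_mem_iff_left h3).mp h1
    exact (L.add_mem_iff_right h2).mp h4
  have s3 : ∀ l ∈ L, ∀ u, (∃ v ∈ L, v * u ∉ L) → Γ l u ∈ PL L := by
    rintro l hl u ⟨v, hv, hvu⟩ c
    obtain ⟨w, hw⟩ := hL.max _ hvu
    have e : Γ l u * c = Γ l u * (c * w * v) * u - (Γ l u * c) * (w * (v * u) - 1) := by noncomm_ring
    rw [e]
    exact L.sub_mem (s2 l hl _ (hL.mul_mem _ hv) u) (hL.mul_mem _ hw)
  -- `L` is not two-sided
  obtain ⟨u0, hu0⟩ : ∃ u0, (b0 - l0 • (1 : B)) * u0 ∉ L := by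
    have := h.not_PL
    rw [mem_PL] at this
    push Not at this
    exact this
  set v0 := b0 - l0 • (1 : B) with hv0
  have hv0L : v0 ∈ L := h.mem
  have s4 : ∀ l ∈ L, ∀ u, Γ l u ∈ PL L := by
    intro l hl u
    by_cases hcase : ∃ v ∈ L, v * u ∉ L
    · exact s3 l hl u hcase
    · push Not at hcase
      have h1 : Γ l (u + u0) ∈ PL L := by
        refine s3 l hl _ ⟨v0, hv0L, ?_⟩
        rw [mul_add]
        intro h2
        exact hu0 ((L.add_mem_iff_right (hcase v0 hv0L)).mp h2)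
      have h2 : Γ l u0 ∈ PL L := s3 l hl _ ⟨v0, hv0L, hu0⟩
      rw [Γadd] at h1
      exact ((PL L).add_mem_iff_left h2).mp h1
  -- `1 = l1 * u0 + l2`
  obtain ⟨w, hw⟩ := hL.max _ hu0
  set l1 := w * v0 with hl1
  set l2 := -(w * (v0 * u0) - 1) with hl2
  have hl1L : l1 ∈ L := hL.mul_mem _ hv0L
  have hl2L : l2 ∈ L := L.neg_mem hw
  have e1 : (1 : B) = l1 * u0 + l2 := by rw [hl1, hl2]; noncomm_ring
  have hone : om D x l1 * u0 + om D x l2 ∈ PL L := by
    have h1 : om D x 1 = Γ l1 u0 + om D x l1 * u0 + om D x l2 := by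
      conv_lhs => rw [e1, om_add_right]
      simp only [hΓ]; abel
    rw [om_one hD] at h1
    have h2 : om D x l1 * u0 + om D x l2 = -Γ l1 u0 := by
      have : om D x l1 * u0 + om D x l2 = (Γ l1 u0 + om D x l1 * u0 + om D x l2) - Γ l1 u0 := by abel
      rw [this, ← h1, zero_sub]
    rw [h2]
    exact (PL L).neg_mem (s4 l1 hl1L u0)
  have e2 : om D x b = Γ l1 (u0 * b) + Γ l2 b + (om D x l1 * u0 + om D x l2) * b := by
    have h1 : b = l1 * (u0 * b) + l2 * b := by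
      calc b = 1 * b := (one_mul b).symm
        _ = (l1 * u0 + l2) * b := by rw [← e1]
        _ = _ := by rw [add_mul, mul_assoc]
    conv_lhs => rw [h1, om_add_right]
    simp only [hΓ]
    noncomm_ring
  rw [e2]
  exact (PL L).add_mem ((PL L).add_mem (s4 _ hl1L _) (s4 _ hl2L _)) (PL_mul_right hone b)

/-- a peripheral point of the spectrum is not left invertible -/
theorem not_left_inv (b0 : B) (l0 : ℂ) (hl : l0 ∈ spectrum ℂ b0) (h0 : ‖l0‖ = r b0) (x : B) : x * (b0 - l0 • (1 : B)) ≠ 1 := by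
  intro hx
  obtain ⟨u, hu1, hu⟩ := exists_dir l0
  have hlim : Tendsto (fun s : ℝ => ‖((s : ℂ) * u) • x‖) (𝓝[>] 0) (𝓝 0) := by
    have h1 : Continuous (fun s : ℝ => ‖((s : ℂ) * u) • x‖) := by fun_prop
    have h2 := h1.tendsto 0
    simp only [Complex.ofReal_zero, zero_mul, zero_smul, norm_zero] at h2
    exact h2.mono_left nhdsWithin_le_nhds
  obtain ⟨s, hs1, hs2⟩ := ((hlim.eventually (gt_mem_nhds one_pos)).and self_mem_nhdsWithin).exists
  have hs0 : (0 : ℝ) < s := hs2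
  have hns : l0 + (s : ℂ) * u ∉ spectrum ℂ b0 := by
    intro hc
    have := norm_le_r hc
    rw [hu s hs0.le, h0] at this
    linarith
  have hunit : IsUnit (b0 - (l0 + (s : ℂ) * u) • (1 : B)) := by
    rw [spectrum.notMem_iff, Algebra.algebraMap_eq_smul_one] at hns
    have := hns.neg
    rwa [neg_sub] at this
  have hg : IsUnit (x * (b0 - (l0 + (s : ℂ) * u) • (1 : B))) := by
    have e : x * (b0 - (l0 + (s : ℂ) * u) • (1 : B)) = 1 - ((s : ℂ) * u) • x := by
      rw [add_smul, ← sub_sub, mul_sub, hx, mul_smul_comm, mul_one]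
    rw [e]
    exact (Units.oneSub _ hs1).isUnit
  have hxu : IsUnit x := by
    obtain ⟨v, hv⟩ := hunit
    obtain ⟨g, hg⟩ := hg
    have : x = (g : B) * (↑v⁻¹ : B) := by rw [hg, ← hv, mul_assoc, Units.mul_inv, mul_one]
    rw [this]
    exact g.isUnit.mul (v⁻¹).isUnit
  obtain ⟨y, hy⟩ := hxu
  have hb : b0 - l0 • (1 : B) = (↑y⁻¹ : B) := by
    rw [← hy] at hx
    exact (Units.inv_eq_of_mul_eq_one_right hx).symm
  rw [spectrum.mem_iff, Algebra.algebraMap_eq_smul_one] at hl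
  apply hl
  have : IsUnit (b0 - l0 • (1 : B)) := by rw [hb]; exact (y⁻¹).isUnit
  have := this.neg
  rwa [neg_sub] at this

/-- Gelfand–Mazur for a maximal left ideal which is two-sided -/
theorem scalar_mod (hL : ML L) (htwo : ∀ v ∈ L, ∀ c, v * c ∈ L) (b : B) : ∃ μ : ℂ, b - μ • (1 : B) ∈ L := by
  have hcl : IsClosed (L : Set B) := hL.closed
  -- left multiplication on the quotient
  have hle : ∀ c : B, L ≤ Submodule.comap (mL c).toLinearMap L := fun c v hv => hL.mul_mem c hv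
  have hbd : ∀ (c : B) (y : B ⧸ L), ‖L.mapQ L (mL c).toLinearMap (hle c) y‖ ≤ ‖c‖ * ‖y‖ := by
    intro c y
    refine le_of_forall_pos_le_add (fun ε hε => ?_)
    obtain ⟨m, hm, hm2⟩ := Submodule.Quotient.norm_mk_lt y (show 0 < ε / (‖c‖ + 1) by positivity)
    rw [← hm]
    show ‖(Submodule.Quotient.mk (c * m) : B ⧸ L)‖ ≤ _
    calc ‖(Submodule.Quotient.mk (c * m) : B ⧸ L)‖ ≤ ‖c * m‖ := Submodule.Quotient.norm_mk_le _ _
      _ ≤ ‖c‖ * ‖m‖ := norm_mul_le _ _
      _ ≤ ‖c‖ * (‖y‖ + ε / (‖c‖ + 1)) := by gcongr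
      _ = ‖c‖ * ‖y‖ + ‖c‖ / (‖c‖ + 1) * ε := by ring
      _ ≤ ‖c‖ * ‖y‖ + 1 * ε := by
          gcongr
          rw [div_le_one (by positivity)]; linarith
      _ = ‖c‖ * ‖(Submodule.Quotient.mk m : B ⧸ L)‖ + ε := by rw [hm]; ring
  set π : B → ((B ⧸ L) →L[ℂ] (B ⧸ L)) := fun c => LinearMap.mkContinuous _ ‖c‖ (hbd c) with hπ
  have hπa : ∀ c m, π c (Submodule.Quotient.mk m) = Submodule.Quotient.mk (c * m) := fun c m => rfl
  have hπmul : ∀ c d, π (c * d) = π c * π d := by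
    intro c d
    ext y
    obtain ⟨m, rfl⟩ := Submodule.Quotient.mk_surjective L y
    show π (c * d) (Submodule.Quotient.mk m) = π c (π d (Submodule.Quotient.mk m))
    rw [hπa, hπa, hπa, mul_assoc]
  have hπeq : ∀ c d, c - d ∈ L → π c = π d := by
    intro c d hcd
    ext y
    obtain ⟨m, rfl⟩ := Submodule.Quotient.mk_surjective L y
    rw [hπa, hπa, Submodule.Quotient.eq, ← sub_mul]
    exact htwo _ hcd m
  have hπ1 : π 1 = 1 := by
    ext y
    obtain ⟨m, rfl⟩ := Submodule.Quotient.mk_surjective L y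
    rw [hπa, one_mul]; rfl
  have hnt : Nontrivial (B ⧸ L) := by
    refine ⟨⟨Submodule.Quotient.mk 1, 0, ?_⟩⟩
    rw [Ne, Submodule.Quotient.mk_eq_zero]
    exact hL.one_notMem
  have hnt2 : Nontrivial ((B ⧸ L) →L[ℂ] (B ⧸ L)) := by
    refine ⟨⟨1, 0, fun h => ?_⟩⟩
    obtain ⟨y, hy⟩ := exists_ne (0 : B ⧸ L)
    exact hy (by have := DFunLike.congr_fun h y; simpa using this)
  obtain ⟨μ, hμ⟩ := spectrum.nonempty (π b)
  refine ⟨μ, ?_⟩
  by_contra hcon
  obtain ⟨u, hu⟩ := hL.max _ hcon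
  have huL : u ∉ L := by
    intro h
    exact hL.one_notMem (by
      have h1 := htwo u h (b - μ • (1 : B))
      have h2 := L.sub_mem h1 hu
      have e : u * (b - μ • (1 : B)) - (u * (b - μ • (1 : B)) - 1) = 1 := by abel
      rwa [e] at h2)
  obtain ⟨v, hv⟩ := hL.max _ huL
  have h1 : π u * π (b - μ • (1 : B)) = 1 := by rw [← hπmul, hπeq _ _ hu, hπ1]
  have h2 : π v * π u = 1 := by rw [← hπmul, hπeq _ _ hv, hπ1]
  have h3 : π (b - μ • (1 : B)) * π u = 1 := by
    have : π v = π (b - μ • (1 : B)) := by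
      calc π v = π v * (π u * π (b - μ • (1 : B))) := by rw [h1, mul_one]
        _ = (π v * π u) * π (b - μ • (1 : B)) := by rw [mul_assoc]
        _ = _ := by rw [h2, one_mul]
    rw [← this]; exact h2
  rw [spectrum.mem_iff] at hμ
  apply hμ
  have e : algebraMap ℂ ((B ⧸ L) →L[ℂ] (B ⧸ L)) μ - π b = -π (b - μ • (1 : B)) := by
    ext y
    obtain ⟨m, rfl⟩ := Submodule.Quotient.mk_surjective L y
    rw [Algebra.algebraMap_eq_smul_one]
    show μ • (Submodule.Quotient.mk m : B ⧸ L) - Submodule.Quotient.mk (b * m) = -(Submodule.Quotient.mk ((b - μ • (1 : B)) * m))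
    rw [sub_mul, smul_mul_assoc, one_mul, Submodule.Quotient.mk_sub, Submodule.Quotient.mk_smul]
    abel
  rw [e]
  exact IsUnit.neg ⟨⟨_, _, h3, h1⟩, rfl⟩

theorem exists_functional (hL : ML L) : ∃ l : B →L[ℂ] ℂ, (∀ v ∈ L, l v = 0) ∧ l 1 = 1 := by
  have hcl : IsClosed (L : Set B) := hL.closed
  set q : B →L[ℂ] (B ⧸ L) := LinearMap.mkContinuous L.mkQ 1 (fun b => by
    rw [one_mul]; exact Submodule.Quotient.norm_mk_le _ _) with hq
  have hq0 : ∀ v ∈ L, q v = 0 := fun v hv => (Submodule.Quotient.mk_eq_zero L).mpr hv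
  have hne : q 1 ≠ 0 := fun h => hL.one_notMem ((Submodule.Quotient.mk_eq_zero L).mp h)
  obtain ⟨f, -, hf2⟩ := exists_dual_vector ℂ (q 1) (norm_ne_zero_iff.mpr hne)
  have hn : (‖q 1‖ : ℂ) ≠ 0 := by exact_mod_cast (norm_pos_iff.mpr hne).ne'
  refine ⟨(‖q 1‖ : ℂ)⁻¹ • f.comp q, fun v hv => ?_, ?_⟩
  · show (‖q 1‖ : ℂ)⁻¹ • f (q v) = 0
    rw [hq0 v hv, map_zero, smul_zero]
  · show (‖q 1‖ : ℂ)⁻¹ • f (q 1) = 1
    rw [hf2, smul_eq_mul]
    exact inv_mul_cancel₀ hn

/-- case of a two-sided maximal left ideal: `D` maps `B` into `L` -/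
theorem D_mem_of_two (hD : D ∈ GG B) (hL : ML L) (htwo : ∀ v ∈ L, ∀ c, v * c ∈ L) (b : B) : D b ∈ L := by
  obtain ⟨l, hlL, hl1⟩ := exists_functional hL
  have hval : ∀ c μ, c - μ • (1 : B) ∈ L → l c = μ := by
    intro c μ hc
    have := hlL _ hc
    rw [map_sub, map_smul, hl1, smul_eq_mul, mul_one, sub_eq_zero] at this
    exact this
  have hbd : ∀ c, ‖l c‖ ≤ r c := by
    intro c
    obtain ⟨μ, hμ⟩ := scalar_mod hL htwo c
    rw [hval c μ hμ]
    exact norm_le_r (hL.mem_spectrum hμ)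
  set f : ℂ → ℂ := fun z => l (NormedSpace.exp (z • D) b) with hf
  have hfd : ∀ z, HasDerivAt f (l ((NormedSpace.exp (z • D) * D) b)) z := by
    intro z
    have h1 := hasDerivAt_exp_smul_const (𝕂 := ℂ) D z
    have h2 := ((ContinuousLinearMap.apply ℂ B b).hasFDerivAt.comp_hasDerivAt z h1)
    exact l.hasFDerivAt.comp_hasDerivAt z h2
  have hbdd : Bornology.IsBounded (Set.range f) := by
    rw [isBounded_iff_forall_norm_le]
    refine ⟨r b, ?_⟩
    rintro _ ⟨z, rfl⟩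
    exact (hbd _).trans (GG_SI hD z b).le
  have hconst : ∀ z, f z = f 0 := fun z => Differentiable.apply_eq_apply_of_bounded (fun z => (hfd z).differentiableAt) hbdd z 0
  have h0 := hfd 0
  have hfe : f = fun _ => f 0 := funext hconst
  rw [hfe] at h0
  have h1 := h0.unique (hasDerivAt_const (0 : ℂ) (f 0))
  rw [show NormedSpace.exp ((0 : ℂ) • D) * D = D from exp_zero_smul_mul D] at h1
  obtain ⟨μ, hμ⟩ := scalar_mod hL htwo (D b)
  have h2 := hval _ _ hμ
  rw [h1] at h2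
  rw [← h2] at hμ
  simpa using hμ

end Pool.Agent.Helper192.KP
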