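import Mathlib
import Pool.Agent.Helper192.KP.D

set_option autoImplicit false
set_option linter.unusedSectionVars false

open Filter Topology

noncomputable section

namespace Pool.Agent.Helper192.KP

variable {B : Type*} [NormedRing B] [NormedAlgebra ℂ B] [CompleteSpace B] {L : Submodule ℂ B} {D : B →L[ℂ] B}

/-- the two-sided ideal `W` -/
def WW (D : B →L[ℂ] B) : Submodule ℂ B where
  carrier := {w | ∀ L : Submodule ℂ B, ML L → (∀ x b, om D x b ∈ PL L) → w ∈ PL L}
  add_mem' := fun {v w} hv hw L h1 h2 => (PL L).add_mem (hv L h1 h2) (hw L h1 h2)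
  zero_mem' := fun L _ _ => (PL L).zero_mem
  smul_mem' := fun c w hw L h1 h2 => (PL L).smul_mem c (hw L h1 h2)

theorem WW_left {w : B} (hw : w ∈ WW D) (u : B) : u * w ∈ WW D := fun L h1 h2 => h1.PL_mul_left (hw L h1 h2) u

theorem WW_right {w : B} (hw : w ∈ WW D) (u : B) : w * u ∈ WW D := fun L h1 h2 => PL_mul_right (hw L h1 h2) u

theorem om_mem_WW (x b : B) : om D x b ∈ WW D := fun L _ h2 => h2 x b

/-- step 8, commutators in `W` are quasinilpotent -/
theorem comm_WW [Nontrivial B] (hD : Adm D) {e f : B} (he : e ∈ WW D) : r (e * f - f * e) = 0 := by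
  by_contra hne
  obtain ⟨l0, hl0, h0⟩ := exists_mem_r (e * f - f * e)
  have hl0' : l0 ≠ 0 := by
    intro h
    rw [h, norm_zero] at h0
    exact hne h0.symm
  obtain ⟨L, hL, hmem⟩ := exists_ML (e * f - f * e - l0 • (1 : B)) (not_left_inv _ l0 hl0 h0)
  have hper : Per (e * f - f * e) l0 L := ⟨hL, h0, hmem, wielandt e f l0 hl0'⟩
  have h1 : e ∈ PL L := he L hL (fun x b => step7 hD hper x b)
  have h2 : e * f - f * e ∈ L := L.sub_mem (h1 f) (PL_le (hL.PL_mul_left h1 f))
  have h3 : l0 • (1 : B) ∈ L := by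
    have := L.sub_mem h2 hmem
    rwa [sub_sub_cancel] at this
  have h4 := L.smul_mem l0⁻¹ h3
  rw [smul_smul, inv_mul_cancel₀ hl0', one_smul] at h4
  exact hL.one_notMem h4

/-- step 8 -/
theorem core (hD : Adm D) (hL : ML L) (x1 b1 : B) : om D x1 b1 ∈ L := by
  by_contra hcon
  have hnt : Nontrivial B := by
    refine ⟨⟨om D x1 b1, 0, fun h => hcon ?_⟩⟩
    rw [h]; exact L.zero_mem
  set ω := om D x1 b1 with hω
  have hωW : ω ∈ WW D := om_mem_WW x1 b1
  by_cases hcase : ∀ v ∈ L, ∀ c, v * c ∈ L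
  · -- two-sided case
    apply hcon
    rw [hω]
    unfold om
    have h := fun c => D_mem_of_two hD.mem hL hcase c
    exact L.sub_mem (L.sub_mem (h _) (hL.mul_mem _ (h _))) (hcase _ (h _) _)
  · push Not at hcase
    obtain ⟨v0, hv0, c, hv0c⟩ := hcase
    obtain ⟨u, hu⟩ := hL.max _ hcon
    set w := u * ω with hw
    have hwW : w ∈ WW D := WW_left hωW u
    set f := c * w with hf
    have hv0f : v0 * f ∉ L := by
      intro h1
      apply hv0c
      have h2 : v0 * c = v0 * f - (v0 * c) * (w - 1) := by rw [hf]; noncomm_ring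
      rw [h2]
      exact L.sub_mem h1 (hL.mul_mem _ hu)
    obtain ⟨s, hs⟩ := hL.max _ hv0f
    set l := s * v0 with hl
    have hlL : l ∈ L := hL.mul_mem _ hv0
    set e := w * l with he
    have heW : e ∈ WW D := WW_right hwW l
    have heL : e ∈ L := hL.mul_mem _ hlL
    have h1 : e * f - f * e - 1 ∈ L := by
      have e1 : e * f - f * e - 1 = w * (s * (v0 * f) - 1) + (w - 1) - f * e := by
        rw [he, hl]; noncomm_ring
      rw [e1]
      exact L.sub_mem (L.add_mem (hL.mul_mem _ hs) hu) (hL.mul_mem _ heL)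
    have h2 := hL.one_le_r h1
    rw [comm_WW hD heW] at h2
    linarith

end Pool.Agent.Helper192.KP
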