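import Mathlib
import Pool.Agent.Helper192.KP.E

set_option autoImplicit false
set_option linter.unusedSectionVars false

open Filter Topology

noncomputable section

namespace Pool.Agent.Helper192.KP

section

variable {A B : Type*} [NormedRing A] [NormedAlgebra ℂ A] [CompleteSpace A]
variable [NormedRing B] [NormedAlgebra ℂ B] [CompleteSpace B]

theorem ss_zero (hB : (⊥ : Ideal B).jacobson = ⊥) {b : B} (h : ∀ L : Submodule ℂ B, ML L → b ∈ L) : b = 0 := by
  have h1 : b ∈ (⊥ : Ideal B).jacobson := by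
    unfold Ideal.jacobson
    rw [Ideal.mem_sInf]
    intro I hI
    exact h _ (ML.of_ideal I hI.2)
  rw [hB] at h1
  exact (Submodule.mem_bot B).mp h1

theorem spec_sub (T : A →ₗ[ℂ] B) (h1 : T 1 = 1) (hT : ∀ a, IsUnit a → IsUnit (T a)) (x : A) :
    spectrum ℂ (T x) ⊆ spectrum ℂ x := by
  intro l hl
  rw [spectrum.mem_iff] at hl ⊢
  intro hu
  apply hl
  have := hT _ hu
  rwa [map_sub, Algebra.algebraMap_eq_smul_one, map_smul, h1, ← Algebra.algebraMap_eq_smul_one] at this

theorem r_T (T : A →ₗ[ℂ] B) (h1 : T 1 = 1) (hT : ∀ a, IsUnit a → IsUnit (T a)) (x : A) : r (T x) ≤ ‖x‖ := by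
  refine le_trans ?_ (r_le_norm x)
  exact r_le (r_nonneg _) (fun l hl => norm_le_r (spec_sub T h1 hT x hl))

theorem sep_le (T : A →ₗ[ℂ] B) (hs : Function.Surjective T) (h1 : T 1 = 1) (hT : ∀ a, IsUnit a → IsUnit (T a))
    (x : ℕ → A) (m : B) (hx : Tendsto x atTop (𝓝 0)) (hm : Tendsto (fun n => T (x n)) atTop (𝓝 m)) (c : B) :
    r (c + m) ≤ r c := by
  refine le_of_forall_gt_imp_ge_of_dense (fun a' ha' => ?_)
  obtain ⟨a, ha1, ha2⟩ := exists_between ha'
  obtain ⟨δ, hδ, hb⟩ := r_usc c a ha1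
  obtain ⟨y, hy⟩ := hs (c + m)
  have hMp : 0 < ‖m‖ + 1 := by positivity
  set ρ : ℝ := min (1 / 2) (δ / (4 * (‖m‖ + 1))) with hρ
  have hρ0 : 0 < ρ := lt_min (by norm_num) (by positivity)
  have hρ1 : ρ < 1 := lt_of_le_of_lt (min_le_left _ _) (by norm_num)
  have hρ2 : ρ * (‖m‖ + 1) < δ / 2 := by
    have h2 : ρ ≤ δ / (4 * (‖m‖ + 1)) := min_le_right _ _
    calc ρ * (‖m‖ + 1) ≤ δ / (4 * (‖m‖ + 1)) * (‖m‖ + 1) := by gcongr
      _ = δ / 4 := by field_simp
      _ < δ / 2 := by linarith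
  have ha0 : 0 ≤ a := (r_nonneg _).trans ha1.le
  have ha'0 : 0 < a' := lt_of_le_of_lt ha0 ha2
  obtain ⟨k, hk⟩ := exists_m ρ a a' hρ0 ha0 ha2
  set C' : ℝ := ‖y‖ + 2 with hC'
  set R : ℝ := 2 + C' ^ (2 ^ k) / a' ^ (2 ^ k) with hR
  have hR1 : 1 < R := by
    rw [hR]; have : 0 ≤ C' ^ (2 ^ k) / a' ^ (2 ^ k) := by positivity
    linarith
  have e1 : ∀ᶠ n in atTop, (R + 1) * ‖x n‖ < 1 := by
    have : Tendsto (fun n => (R + 1) * ‖x n‖) atTop (𝓝 ((R + 1) * ‖(0 : A)‖)) := (hx.norm).const_mul _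
    rw [norm_zero, mul_zero] at this
    exact this.eventually (gt_mem_nhds one_pos)
  have e2 : ∀ᶠ n in atTop, ‖T (x n)‖ < ‖m‖ + 1 := (hm.norm).eventually (gt_mem_nhds (by linarith))
  have e3 : ∀ᶠ n in atTop, ‖m - T (x n)‖ < δ / 2 := by
    have : Tendsto (fun n => ‖m - T (x n)‖) atTop (𝓝 ‖m - m‖) := (tendsto_const_nhds.sub hm).norm
    rw [sub_self, norm_zero] at this
    exact this.eventually (gt_mem_nhds (by positivity))
  obtain ⟨n, hn1, hn2, hn3⟩ := (e1.and (e2.and e3)).exists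
  set P : ℂ → B := fun w => (c + m - T (x n)) + w • T (x n) with hP
  have hPd : Differentiable ℂ P := by
    have : Differentiable ℂ (fun w : ℂ => w • T (x n)) := differentiable_id.smul_const _
    exact this.const_add _
  have hPT : ∀ w, P w = T (y + (w - 1) • x n) := by
    intro w
    rw [map_add, map_smul, hy, sub_smul, one_smul]
    simp only [hP]; abel
  have key := annulus P hPd ρ R a C' a' k hρ0 hρ1 hR1 ha'0 ?_ ?_ hk ?_
  · have hP1 : P 1 = c + m := by simp [hP]
    rwa [hP1] at key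
  · intro w hw
    refine hb _ ?_
    have : P w - c = (m - T (x n)) + w • T (x n) := by simp only [hP]; abel
    rw [this]
    calc ‖(m - T (x n)) + w • T (x n)‖ ≤ ‖m - T (x n)‖ + ‖w • T (x n)‖ := norm_add_le _ _
      _ = ‖m - T (x n)‖ + ρ * ‖T (x n)‖ := by rw [norm_smul, hw]
      _ < δ / 2 + δ / 2 := by
          have : ρ * ‖T (x n)‖ ≤ ρ * (‖m‖ + 1) := by gcongr
          linarith
      _ = δ := by ring
  · intro w hw
    rw [hPT]
    refine lt_of_le_of_lt (r_T T h1 hT _) ?_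
    have : ‖w - 1‖ ≤ R + 1 := by
      have h2 : ‖w - 1‖ ^ 2 ≤ (R + 1) ^ 2 := by
        have h3 : ‖w - 1‖ ≤ ‖w‖ + ‖(1 : ℂ)‖ := norm_sub_le _ _
        rw [hw, norm_one] at h3
        gcongr
      exact le_of_pow_le_pow_left₀ two_ne_zero (by linarith) h2
    calc ‖y + (w - 1) • x n‖ ≤ ‖y‖ + ‖(w - 1) • x n‖ := norm_add_le _ _
      _ = ‖y‖ + ‖w - 1‖ * ‖x n‖ := by rw [norm_smul]
      _ ≤ ‖y‖ + (R + 1) * ‖x n‖ := by gcongr
      _ < C' := by rw [hC']; linarith
  · rw [hR, add_mul, div_mul_cancel₀ _ (by positivity)]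
    have : 0 ≤ 2 * a' ^ (2 ^ k) := by positivity
    linarith

theorem T_continuous (hB : (⊥ : Ideal B).jacobson = ⊥) (T : A →ₗ[ℂ] B) (hs : Function.Surjective T) (h1 : T 1 = 1)
    (hT : ∀ a, IsUnit a → IsUnit (T a)) : Continuous T := by
  refine T.continuous_of_seq_closed_graph ?_
  intro u x y hu hy
  set m : B := y - T x with hm
  have h2 : Tendsto (fun n => u n - x) atTop (𝓝 0) := by
    have := hu.sub (tendsto_const_nhds (x := x))
    rwa [sub_self] at this
  have h3 : Tendsto (fun n => T (u n - x)) atTop (𝓝 m) := by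
    simp only [map_sub]
    exact hy.sub tendsto_const_nhds
  have hmZ : m ∈ ZZ B := by
    intro c z
    refine sep_le T hs h1 hT (fun n => z • (u n - x)) (z • m) ?_ ?_ c
    · have := h2.const_smul z
      rwa [smul_zero] at this
    · have := h3.const_smul z
      simpa only [map_smul] using this
  have := ss_zero hB (fun L hL => zemanek hmZ hL)
  exact sub_eq_zero.mp this

/-- the class of maps considered -/
structure HT (T : A →L[ℂ] B) : Prop where
  surj : Function.Surjective T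
  one : T 1 = 1
  unit : ∀ a, IsUnit a → IsUnit (T a)

theorem HT.r_le {T : A →L[ℂ] B} (hT : HT T) (x : A) : r (T x) ≤ ‖x‖ := r_T (T : A →ₗ[ℂ] B) hT.one hT.unit x

/-- the twisted map `T_a` -/
def Ta (T : A →L[ℂ] B) (a : A) : A →L[ℂ] B := (mL (Ring.inverse (T a))).comp (T.comp (mL a))

theorem Ta_apply (T : A →L[ℂ] B) (a x : A) : Ta T a x = Ring.inverse (T a) * T (a * x) := rfl

theorem HT.twist {T : A →L[ℂ] B} (hT : HT T) (a : Aˣ) : HT (Ta T (a : A)) := by
  have hu : IsUnit (T (a : A)) := hT.unit _ a.isUnit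
  refine ⟨fun b => ?_, ?_, fun x hx => ?_⟩
  · obtain ⟨x, hx⟩ := hT.surj (T (a : A) * b)
    refine ⟨(↑a⁻¹ : A) * x, ?_⟩
    rw [Ta_apply, Units.mul_inv_cancel_left, hx, Ring.inverse_mul_cancel_left _ _ hu]
  · rw [Ta_apply, mul_one, Ring.inverse_mul_cancel _ hu]
  · rw [Ta_apply]
    exact (isUnit_ringInverse.mpr hu).mul (hT.unit _ (a.isUnit.mul hx))

theorem HT.liouville {T : A →L[ℂ] B} (hT : HT T) (y x : A) (z : ℂ) : r (Ta T (NormedSpace.exp (z • y)) x) = r (T x) := by
  have hunit : ∀ z : ℂ, IsUnit (T (NormedSpace.exp (z • y))) := fun z => hT.unit _ (expU (z • y)).isUnit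
  have hd : Differentiable ℂ (fun z : ℂ => Ta T (NormedSpace.exp (z • y)) x) := by
    intro z
    have e1 : DifferentiableAt ℂ (fun z : ℂ => NormedSpace.exp (z • y)) z := (hasDerivAt_exp_smul_const (𝕂 := ℂ) y z).differentiableAt
    have e2 : DifferentiableAt ℂ (fun z : ℂ => T (NormedSpace.exp (z • y))) z := T.differentiableAt.comp z e1
    have e3 : DifferentiableAt ℂ (fun z : ℂ => Ring.inverse (T (NormedSpace.exp (z • y)))) z :=
      DifferentiableAt.comp (f := fun z : ℂ => T (NormedSpace.exp (z • y))) z (differentiableAt_inverse (𝕜 := ℂ) (hunit z)) e2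
    have e4 : DifferentiableAt ℂ (fun z : ℂ => T (NormedSpace.exp (z • y) * x)) z :=
      T.differentiableAt.comp z (e1.mul_const x)
    exact e3.mul e4
  have := KP.liouville (fun z : ℂ => Ta T (NormedSpace.exp (z • y)) x) hd ‖x‖ (fun w => (hT.twist (expU (w • y))).r_le x) z
  rw [this, zero_smul, NormedSpace.exp_zero, Ta_apply, hT.one, Ring.inverse_one, one_mul, one_mul]

theorem HT.ker_left (hB : (⊥ : Ideal B).jacobson = ⊥) {T : A →L[ℂ] B} (hT : HT T) {n : A} (hn : T n = 0) (y : A) : T (y * n) = 0 := by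
  have key : ∀ z : ℂ, T (NormedSpace.exp (z • y) * n) = 0 := by
    intro z
    have hu : IsUnit (T (NormedSpace.exp (z • y))) := hT.unit _ (expU (z • y)).isUnit
    have hZ : Ta T (NormedSpace.exp (z • y)) n ∈ ZZ B := by
      intro c w
      obtain ⟨x, rfl⟩ := (hT.twist (expU (z • y))).surj c
      show r (Ta T (NormedSpace.exp (z • y)) x + w • Ta T (NormedSpace.exp (z • y)) n) ≤ r (Ta T (NormedSpace.exp (z • y)) x)
      rw [← map_smul, ← map_add, hT.liouville, hT.liouville, map_add, map_smul, hn, smul_zero, add_zero]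
    have h0 := ss_zero hB (fun L hL => zemanek hZ hL)
    rw [Ta_apply] at h0
    have := congrArg (fun w => T (NormedSpace.exp (z • y)) * w) h0
    simpa only [Ring.mul_inverse_cancel_left _ _ hu, mul_zero] using this
  have h1 : HasDerivAt (fun z : ℂ => T (NormedSpace.exp (z • y) * n)) (T (NormedSpace.exp ((0 : ℂ) • y) * y * n)) 0 :=
    T.hasFDerivAt.comp_hasDerivAt (0 : ℂ) ((hasDerivAt_exp_smul_const (𝕂 := ℂ) y 0).mul_const n)
  have h2 : (fun z : ℂ => T (NormedSpace.exp (z • y) * n)) = fun _ => 0 := funext key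
  rw [h2] at h1
  have h3 := h1.unique (hasDerivAt_const (0 : ℂ) (0 : B))
  rwa [exp_zero_smul_mul] at h3

theorem HT.exists_M (hB : (⊥ : Ideal B).jacobson = ⊥) {T : A →L[ℂ] B} (hT : HT T) :
    ∃ M : A →L[ℂ] (B →L[ℂ] B), ∀ y x, M y (T x) = T (y * x) := by
  obtain ⟨K, hK, hKp⟩ := T.exists_preimage_norm_le hT.surj
  choose s hs1 hs2 using hKp
  have hadd : ∀ (y : A) (b c : B), T (y * s (b + c)) = T (y * s b) + T (y * s c) := by
    intro y b c
    have h1 : T (s (b + c) - s b - s c) = 0 := by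
      rw [map_sub, map_sub, hs1, hs1, hs1]; abel
    have h2 := hT.ker_left hB h1 y
    rw [mul_sub, mul_sub, map_sub, map_sub, sub_sub, sub_eq_zero] at h2
    exact h2
  have hsmul : ∀ (y : A) (z : ℂ) (b : B), T (y * s (z • b)) = z • T (y * s b) := by
    intro y z b
    have h1 : T (s (z • b) - z • s b) = 0 := by
      rw [map_sub, map_smul, hs1, hs1, sub_self]
    have h2 := hT.ker_left hB h1 y
    rw [mul_sub, map_sub, mul_smul_comm, map_smul, sub_eq_zero] at h2
    exact h2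
  set f : A →ₗ[ℂ] B →ₗ[ℂ] B := LinearMap.mk₂ ℂ (fun y b => T (y * s b))
    (fun y y' b => by rw [add_mul, map_add]) (fun z y b => by rw [smul_mul_assoc, map_smul]) hadd
    (fun z y b => hsmul y z b) with hf
  refine ⟨f.mkContinuous₂ (‖T‖ * K) (fun y b => ?_), fun y x => ?_⟩
  · show ‖T (y * s b)‖ ≤ ‖T‖ * K * ‖y‖ * ‖b‖
    calc ‖T (y * s b)‖ ≤ ‖T‖ * ‖y * s b‖ := T.le_opNorm _
      _ ≤ ‖T‖ * (‖y‖ * ‖s b‖) := by gcongr; exact norm_mul_le _ _
      _ ≤ ‖T‖ * (‖y‖ * (K * ‖b‖)) := by gcongr; exact hs2 b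
      _ = ‖T‖ * K * ‖y‖ * ‖b‖ := by ring
  · show T (y * s (T x)) = T (y * x)
    have h1 : T (s (T x) - x) = 0 := by rw [map_sub, hs1, sub_self]
    have h2 := hT.ker_left hB h1 y
    rw [mul_sub, map_sub, sub_eq_zero] at h2
    exact h2

theorem ext_T {T : A →L[ℂ] B} (hT : HT T) {P Q : B →L[ℂ] B} (h : ∀ x, P (T x) = Q (T x)) : P = Q := by
  ext b
  obtain ⟨x, rfl⟩ := hT.surj b
  exact h x

theorem HT.D_mem (hB : (⊥ : Ideal B).jacobson = ⊥) {T : A →L[ℂ] B} (hT : HT T) (y : A) (D : B →L[ℂ] B)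
    (hD : ∀ x, D (T x) = T (y * x) - T y * T x) : D ∈ GG B := by
  obtain ⟨M, hM⟩ := hT.exists_M hB
  have hDM : D = M y - mL (T y) := ext_T hT (fun x => by rw [hD, ContinuousLinearMap.sub_apply, hM]; rfl)
  have hM1 : M 1 = 1 := ext_T hT (fun x => by rw [hM, one_mul]; rfl)
  have main : ∀ y : A, ∃ u : ℕ → B →L[ℂ] B, (∀ n, SI (u n)) ∧
      Tendsto (fun n : ℕ => (n : ℂ) • (u n - 1)) atTop (𝓝 (M y - mL (T y))) := by
    intro y
    set Θ : ℂ → (B →L[ℂ] B) := fun h => mLL B (Ring.inverse (T (NormedSpace.exp (h • y)))) * M (NormedSpace.exp (h • y)) with hΘ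
    have hSI : ∀ h, SI (Θ h) := by
      intro h b
      obtain ⟨x, rfl⟩ := hT.surj b
      have e : Θ h (T x) = Ta T (NormedSpace.exp (h • y)) x := by
        show Ring.inverse (T (NormedSpace.exp (h • y))) * M (NormedSpace.exp (h • y)) (T x) = _
        rw [hM]; rfl
      rw [e, hT.liouville]
    have hΘ0 : Θ 0 = 1 := by
      simp only [hΘ, zero_smul, NormedSpace.exp_zero, hT.one, Ring.inverse_one, hM1, mul_one]
      exact mL_one
    have hder : HasDerivAt Θ (M y - mL (T y)) 0 := by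
      have e1 : HasDerivAt (fun h : ℂ => NormedSpace.exp (h • y)) y 0 := by
        have := hasDerivAt_exp_smul_const (𝕂 := ℂ) y 0
        rwa [exp_zero_smul_mul] at this
      have e2 : HasDerivAt (fun h : ℂ => M (NormedSpace.exp (h • y))) (M y) 0 := M.hasFDerivAt.comp_hasDerivAt (0 : ℂ) e1
      have e3 : HasDerivAt (fun h : ℂ => T (NormedSpace.exp (h • y))) (T y) 0 := T.hasFDerivAt.comp_hasDerivAt (0 : ℂ) e1
      have e4 : HasDerivAt (fun h : ℂ => Ring.inverse (T (NormedSpace.exp (h • y)))) (-(T y)) 0 := by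
        have h0 : T (NormedSpace.exp ((0 : ℂ) • y)) = ((1 : Bˣ) : B) := by
          rw [zero_smul, NormedSpace.exp_zero, hT.one]; rfl
        have h1 := hasFDerivAt_ringInverse (𝕜 := ℂ) (1 : Bˣ)
        rw [← h0] at h1
        have h2 := h1.comp_hasDerivAt (0 : ℂ) e3
        have e : (-(ContinuousLinearMap.mulLeftRight ℂ B (↑(1 : Bˣ)⁻¹ : B) (↑(1 : Bˣ)⁻¹ : B))) (T y) = -(T y) := by
          simp
        rw [e] at h2
        exact h2
      have e5 : HasDerivAt (fun h : ℂ => mLL B (Ring.inverse (T (NormedSpace.exp (h • y))))) (mLL B (-(T y))) 0 :=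
        (mLL B).hasFDerivAt.comp_hasDerivAt (0 : ℂ) e4
      have e6 := e5.mul e2
      have e7 : mLL B (-(T y)) * M (NormedSpace.exp ((0 : ℂ) • y)) + mLL B (Ring.inverse (T (NormedSpace.exp ((0 : ℂ) • y)))) * M y =
          M y - mL (T y) := by
        rw [zero_smul, NormedSpace.exp_zero, hM1, mul_one, hT.one, Ring.inverse_one, map_neg]
        have : mLL B (1 : B) = 1 := mL_one
        rw [this, one_mul, mLL_apply]; abel
      rw [e7] at e6
      exact e6
    refine ⟨fun n => Θ ((n : ℂ)⁻¹), fun n => hSI _, ?_⟩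
    have := lim_of_deriv Θ _ hder
    rwa [hΘ0] at this
  refine GG_of_lim (fun z => ?_)
  have h := main (z • y)
  have e : M (z • y) - mL (T (z • y)) = z • D := by
    rw [hDM, map_smul, map_smul, ← mLL_apply, map_smul, mLL_apply, smul_sub]
  rwa [e] at h

/-- the twisted operator -/
theorem HT.D_twist (hB : (⊥ : Ideal B).jacobson = ⊥) {T : A →L[ℂ] B} (hT : HT T) (y : A) (D : B →L[ℂ] B)
    (hD : ∀ x, D (T x) = T (y * x) - T y * T x) (a : Aˣ) :
    mL (Ring.inverse (T (a : A))) * (D * mL (T (a : A)) - mL (D (T (a : A)))) ∈ GG B := by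
  have hu : IsUnit (T (a : A)) := hT.unit _ a.isUnit
  refine (hT.twist a).D_mem hB ((↑a⁻¹ : A) * y * (a : A)) _ (fun x => ?_)
  have e1 : T (a : A) * Ta T (a : A) x = T ((a : A) * x) := by
    rw [Ta_apply, Ring.mul_inverse_cancel_left _ _ hu]
  show Ring.inverse (T (a : A)) * (D (T (a : A) * Ta T (a : A) x) - D (T (a : A)) * Ta T (a : A) x) = _
  rw [e1, hD, hD, sub_mul, mul_assoc (T y), e1, Ta_apply T (a : A) (_ * x), Ta_apply T (a : A) ((↑a⁻¹ : A) * y * (a : A))]
  have e2 : (a : A) * ((↑a⁻¹ : A) * y * (a : A) * x) = y * ((a : A) * x) := by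
    simp only [mul_assoc, Units.mul_inv_cancel_left]
  have e3 : (a : A) * ((↑a⁻¹ : A) * y * (a : A)) = y * (a : A) := by
    simp only [mul_assoc, Units.mul_inv_cancel_left]
  rw [e2, e3]
  noncomm_ring

theorem omL_one_zero {D : B →L[ℂ] B} (h : D 1 = 0) : omL D 1 = 0 := by
  ext b
  simp [omL, h, mL]

theorem HT.adm (hB : (⊥ : Ideal B).jacobson = ⊥) {T : A →L[ℂ] B} (hT : HT T) (y : A) (D : B →L[ℂ] B)
    (hD : ∀ x, D (T x) = T (y * x) - T y * T x) : Adm D := by
  have h1 : D 1 = 0 := by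
    have := hD 1
    rwa [hT.one, mul_one, mul_one, sub_self] at this
  have hmem := hT.D_mem hB y D hD
  obtain ⟨K, hK, hKp⟩ := T.exists_preimage_norm_le hT.surj
  have key : ∀ x : B, ∀ᶠ t in 𝓝[≠] (0 : ℂ), ∃ w ∈ GG B, w + t • (ContinuousLinearMap.compL ℂ B B B (mL x)) w = omL D x := by
    intro x
    have hsmall : ∀ᶠ t in 𝓝[≠] (0 : ℂ), K * ‖t • x‖ < 1 := by
      have h2 : Tendsto (fun t : ℂ => K * ‖t • x‖) (𝓝 0) (𝓝 (K * ‖(0 : ℂ) • x‖)) :=
        ((tendsto_id.smul_const x).norm).const_mul _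
      rw [zero_smul, norm_zero, mul_zero] at h2
      exact (h2.mono_left nhdsWithin_le_nhds).eventually (gt_mem_nhds one_pos)
    filter_upwards [hsmall, self_mem_nhdsWithin] with t ht ht0
    have ht0' : t ≠ 0 := ht0
    obtain ⟨h, hh1, hh2⟩ := hKp (t • x)
    have hh3 : ‖-h‖ < 1 := by rw [norm_neg]; exact lt_of_le_of_lt hh2 ht
    set a : Aˣ := Units.oneSub (-h) hh3 with ha
    have haT : T (a : A) = 1 + t • x := by
      rw [ha]; simp [hT.one, hh1]
    have htw := hT.D_twist hB y D hD a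
    have hu : IsUnit (T (a : A)) := hT.unit _ a.isUnit
    refine ⟨t⁻¹ • (mL (Ring.inverse (T (a : A))) * (D * mL (T (a : A)) - mL (D (T (a : A)))) - D),
      (GG B).smul_mem _ ((GG B).sub_mem htw hmem), ?_⟩
    have e1 : ∀ w : B →L[ℂ] B, w + t • (ContinuousLinearMap.compL ℂ B B B (mL x)) w = mL (T (a : A)) * w := by
      intro w
      ext b
      rw [haT]
      show w b + t • (x * w b) = (1 + t • x) * w b
      rw [add_mul, one_mul, smul_mul_assoc]
    rw [e1]
    ext b
    show T (a : A) * (t⁻¹ • (Ring.inverse (T (a : A)) * (D (T (a : A) * b) - D (T (a : A)) * b) - D b)) = om D x b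
    rw [mul_smul_comm, mul_sub, Ring.mul_inverse_cancel_left _ _ hu, haT]
    have e2 : D ((1 + t • x) * b) - D (1 + t • x) * b - (1 + t • x) * D b = t • om D x b := by
      unfold om
      rw [add_mul, one_mul, smul_mul_assoc, map_add, map_add, map_smul, map_smul, h1, zero_add, add_mul, one_mul, smul_mul_assoc,
        smul_mul_assoc, smul_sub, smul_sub]
      abel
    rw [e2, smul_smul, inv_mul_cancel₀ ht0', one_smul]
  refine ⟨h1, hmem, fun x => ?_, fun x => ?_⟩
  · exact (expand (GG B) GG_closed (ContinuousLinearMap.compL ℂ B B B (mL x)) (omL D x) (key x)).2.1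
  · exact (expand (GG B) GG_closed (ContinuousLinearMap.compL ℂ B B B (mL x)) (omL D x) (key x)).2.2

/-- `D_y` is a derivation -/
theorem HT.deriv (hB : (⊥ : Ideal B).jacobson = ⊥) {T : A →L[ℂ] B} (hT : HT T) (y : A) (D : B →L[ℂ] B)
    (hD : ∀ x, D (T x) = T (y * x) - T y * T x) (a b : B) : D (a * b) = a * D b + D a * b := by
  have h := ss_zero hB (fun L hL => core (hT.adm hB y D hD) hL a b)
  unfold om at h
  rw [sub_sub, sub_eq_zero] at h
  exact h

theorem HT.square (hB : (⊥ : Ideal B).jacobson = ⊥) {T : A →L[ℂ] B} (hT : HT T) (y : A) : T (y * y) = T y * T y := by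
  obtain ⟨M, hM⟩ := hT.exists_M hB
  set p := T y with hp
  set D : B →L[ℂ] B := M y - mL p with hD
  set E : B →L[ℂ] B := M (y * y) - mL (T (y * y)) with hE
  have hDT : ∀ x, D (T x) = T (y * x) - T y * T x := fun x => by
    show M y (T x) - p * T x = _
    rw [hM]
  have hET : ∀ x, E (T x) = T (y * y * x) - T (y * y) * T x := fun x => by
    show M (y * y) (T x) - T (y * y) * T x = _
    rw [hM]
  have dD := hT.deriv hB y D hDT
  have dE := hT.deriv hB (y * y) E hET
  have hMD : ∀ b, M y b = D b + p * b := fun b => by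
    show M y b = M y b - p * b + p * b
    abel
  have hTyy : T (y * y) = D p + p * p := by
    rw [← hMD, hp, hM]
  have hMM : ∀ b, M (y * y) b = M y (M y b) := by
    intro b
    obtain ⟨x, rfl⟩ := hT.surj b
    rw [hM, hM, hM, mul_assoc]
  have hEf : ∀ b, E b = D (D b) + p * D b + p * D b := by
    intro b
    show M (y * y) b - T (y * y) * b = _
    rw [hMM, hMD b, hMD, map_add, dD, hTyy]
    noncomm_ring
  have hk : ∀ a b, (D a + p * a - a * p) * D b = 0 := by
    intro a b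
    have h1 := dE a b
    rw [hEf, hEf, hEf, dD a b, map_add, dD, dD] at h1
    have h2 : (2 : ℂ) • ((D a + p * a - a * p) * D b) = 0 := by
      have e2 : ∀ w : B, (2 : ℂ) • w = w + w := fun w => two_smul ℂ w
      rw [e2]
      rw [← sub_eq_zero] at h1
      rw [← h1]
      noncomm_ring
    have h3 := congrArg (fun w => (2 : ℂ)⁻¹ • w) h2
    simpa only [smul_smul, inv_mul_cancel₀ (two_ne_zero (α := ℂ)), one_smul, smul_zero] using h3
  have hk2 : ∀ a c b, (D a + p * a - a * p) * c * D b = 0 := by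
    intro a c b
    have h1 := hk a (c * b)
    rw [dD, mul_add, ← mul_assoc, ← mul_assoc, hk a c, zero_mul, add_zero] at h1
    exact h1
  have hd : ∀ c, D p * c * D p = 0 := by
    intro c
    have := hk2 p c p
    rwa [add_sub_cancel_right] at this
  have hd0 : D p = 0 := by
    refine ss_zero hB (fun L hL => ?_)
    by_contra hcon
    obtain ⟨u, hu⟩ := hL.max _ hcon
    apply hcon
    have e : D p = D p * u * D p - D p * (u * D p - 1) := by noncomm_ring
    rw [e, hd, zero_sub]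
    exact L.neg_mem (hL.mul_mem _ hu)
  rw [hTyy, hd0, zero_add]

/-- Kaplansky's problem -/
theorem kaplansky (hB : (⊥ : Ideal B).jacobson = ⊥) (T : A →ₗ[ℂ] B) (hs : Function.Surjective T) (h1 : T 1 = 1)
    (hT : ∀ a, IsUnit a → IsUnit (T a)) (y : A) : T (y * y) = T y * T y := by
  set TL : A →L[ℂ] B := ⟨T, T_continuous hB T hs h1 hT⟩ with hTL
  have hH : HT TL := ⟨hs, h1, hT⟩
  exact hH.square hB y

theorem kaplansky_jordan (hB : (⊥ : Ideal B).jacobson = ⊥) (T : A →ₗ[ℂ] B) (hs : Function.Surjective T) (h1 : T 1 = 1)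
    (hT : ∀ a, IsUnit a → IsUnit (T a)) (x y : A) : T (x * y + y * x) = T x * T y + T y * T x := by
  have hx := kaplansky hB T hs h1 hT x
  have hy := kaplansky hB T hs h1 hT y
  have hxy := kaplansky hB T hs h1 hT (x + y)
  have e1 : (x + y) * (x + y) = x * x + y * y + (x * y + y * x) := by noncomm_ring
  rw [e1, map_add T (x * x + y * y), map_add T (x * x), hx, hy, map_add T x y] at hxy
  have e2 : (T x + T y) * (T x + T y) = T x * T x + T y * T y + (T x * T y + T y * T x) := by noncomm_ring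
  rw [e2] at hxy
  exact add_left_cancel hxy

end

end Pool.Agent.Helper192.KP
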